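import Mathlib

namespace Pool.Agent.Lib.MP_bb4e29_gt

/- `E` is a complex inner product space of dimension `n`; complex hyperbolic space `ℂH^n` is its
open unit ball (ball model), with complex structure `J` = multiplication by `i`. -/
variable {E : Type} [NormedAddCommGroup E] [InnerProductSpace ℂ E]

/-- The Riemannian metric of `ℂH^n` at the point `z` of the unit ball, of constant holomorphic
sectional curvature `4c = -4/r^2` (Bergman metric). -/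
noncomputable def met (r : ℝ) (z u v : E) : ℝ :=
  r ^ 2 * ((1 - ‖z‖ ^ 2) * (inner ℂ u v : ℂ).re + ((inner ℂ u z : ℂ) * (inner ℂ z v : ℂ)).re) /
    (1 - ‖z‖ ^ 2) ^ 2

/-- Christoffel symbols of the first kind of `met r` at `z` (Koszul formula):
`g(∇_u v, w)` for constant vector fields `u, v, w`. -/
noncomputable def koszul (r : ℝ) (z u v w : E) : ℝ :=
  (fderiv ℝ (fun y => met r y v w) z u + fderiv ℝ (fun y => met r y u w) z v -
    fderiv ℝ (fun y => met r y u v) z w) / 2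

/-- The distance of `ℂH^n` (curvature `-4/r^2`) in the ball model. -/
noncomputable def hdist (r : ℝ) (z w : E) : ℝ :=
  r * Real.arcosh (‖1 - (inner ℂ z w : ℂ)‖ / Real.sqrt ((1 - ‖z‖ ^ 2) * (1 - ‖w‖ ^ 2)))

/-- The tube of radius `ρ` around the subset `S` of the ball. -/
def tube (r : ℝ) (S : Set E) (ρ : ℝ) : Set E :=
  {z | ‖z‖ < 1 ∧ sInf ((fun w => hdist r z w) '' S) = ρ}

/-- The Hermitian form of signature `(n,1)` on `ℂ^{n+1} = ℂ × E`. -/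
noncomputable def herm (x y : ℂ × E) : ℂ :=
  -(starRingEnd ℂ x.1 * y.1) + (inner ℂ x.2 y.2 : ℂ)

/-- Totally geodesic totally real `ℝH^n`: the image of the real ball (vectors with real
coordinates in an orthonormal basis) under an element of `U(n,1)`
acting projectively (the point `w` of the ball is the line through `(1, w)`). -/
def IsRealForm (S : Set E) : Prop :=
  ∃ (b : OrthonormalBasis (Fin (Module.finrank ℂ E)) ℂ E) (g : (ℂ × E) ≃ₗ[ℂ] (ℂ × E)),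
    (∀ x y, herm (g x) (g y) = herm x y) ∧
    S = {w | ‖w‖ < 1 ∧ ∃ x : E, ‖x‖ < 1 ∧ (∀ j, (inner ℂ (b j) x : ℂ).im = 0) ∧
      ∃ c : ℂ, ((1 : ℂ), w) = c • g (1, x)}

/-- Totally geodesic `ℂH^k`: a nonempty intersection of the ball with a complex affine subspace of
dimension `k`. -/
def IsComplexFlat (k : ℕ) (S : Set E) : Prop :=
  ∃ L : AffineSubspace ℂ E, Module.finrank ℂ L.direction = k ∧ S = {w | ‖w‖ < 1 ∧ w ∈ L} ∧
    S.Nonempty

/-- The members of Montiel's list: horospheres, geodesic spheres, tubes around a totally geodesic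
`ℂH^k` (`1 ≤ k ≤ n - 1`), tubes around a totally geodesic `ℝH^n`. -/
def IsMontiel (r : ℝ) (N : Set E) : Prop :=
  (∃ q : E, ‖q‖ = 1 ∧ ∃ κ : ℝ, 0 < κ ∧
      N = {z | ‖z‖ < 1 ∧ ‖1 - (inner ℂ q z : ℂ)‖ ^ 2 = κ * (1 - ‖z‖ ^ 2)}) ∨
  (∃ p : E, ‖p‖ < 1 ∧ ∃ ρ : ℝ, 0 < ρ ∧ N = {z | ‖z‖ < 1 ∧ hdist r z p = ρ}) ∨
  (∃ k : ℕ, 1 ≤ k ∧ k + 1 ≤ Module.finrank ℂ E ∧
      ∃ S, IsComplexFlat k S ∧ ∃ ρ : ℝ, 0 < ρ ∧ N = tube r S ρ) ∨
  (∃ S, IsRealForm S ∧ ∃ ρ : ℝ, 0 < ρ ∧ N = tube r S ρ)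

/-- `Φ : P → ℂH^n` is a real-analytic embedding with unit normal field `ξ`, shape operator `A`
(read in the parametrisation: `dΦ (A X) = -∇_X ξ`), and `W` is the structure vector field
(`dΦ W = -J ξ`). -/
def IsHypersurface {P : Type} [NormedAddCommGroup P] [NormedSpace ℝ P] (r : ℝ)
    (Φ ξ : P → E) (A : P → P →ₗ[ℝ] P) (W : P → P) : Prop :=
  ContDiff ℝ ⊤ Φ ∧ ContDiff ℝ ⊤ ξ ∧ Topology.IsEmbedding Φ ∧ ∀ u : P,
    ‖Φ u‖ < 1 ∧ Function.Injective (fderiv ℝ Φ u) ∧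
    met r (Φ u) (ξ u) (ξ u) = 1 ∧ (∀ X, met r (Φ u) (ξ u) (fderiv ℝ Φ u X) = 0) ∧
    (∀ X w, met r (Φ u) (fderiv ℝ Φ u (A u X)) w =
      -(met r (Φ u) (fderiv ℝ ξ u X) w + koszul r (Φ u) (fderiv ℝ Φ u X) (ξ u) w)) ∧
    fderiv ℝ Φ u (W u) = -(Complex.I • ξ u)

end Pool.Agent.Lib.MP_bb4e29_gt
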