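import Mathlib
import Pool.Agent.Lib.MP_bb4e29_gt.Defs

namespace Pool.Agent.Lib.MP_bb4e29_gt

variable {E : Type} [NormedAddCommGroup E] [InnerProductSpace ℂ E]

theorem fderiv_of_line {P F : Type} [NormedAddCommGroup P] [NormedSpace ℝ P]
    [NormedAddCommGroup F] [NormedSpace ℝ F] {f : P → F} {u X : P} {y : F}
    (hf : DifferentiableAt ℝ f u) (h : HasDerivAt (fun s : ℝ => f (u + s • X)) y 0) :
    fderiv ℝ f u X = y := by
  have h1 : HasLineDerivAt ℝ f (fderiv ℝ f u X) u X := hf.hasFDerivAt.hasLineDerivAt X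
  exact HasDerivAt.unique h1 h

theorem normsq_eq (z : E) : ‖z‖ ^ 2 = (inner ℂ z z : ℂ).re := by
  rw [← inner_self_eq_norm_sq (𝕜 := ℂ)]
  rfl

theorem met_differentiableAt (r : ℝ) {z : E} (hz : ‖z‖ < 1) (v w : E) :
    DifferentiableAt ℝ (fun y => met r y v w) z := by
  have h0 : (1 - ‖z‖ ^ 2) ^ 2 ≠ 0 := by
    have : 0 < 1 - ‖z‖ ^ 2 := by nlinarith [norm_nonneg z]
    positivity
  have h1 : DifferentiableAt ℝ (fun y : E => ‖y‖ ^ 2) z :=
    (contDiff_norm_sq ℂ (n := 1)).differentiable (by norm_num) z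
  have h2 : DifferentiableAt ℝ (fun y : E => (inner ℂ v y : ℂ)) z :=
    (differentiableAt_const v).inner ℂ differentiableAt_id
  have h3 : DifferentiableAt ℝ (fun y : E => (inner ℂ y w : ℂ)) z :=
    differentiableAt_id.inner ℂ (differentiableAt_const w)
  have h4 : DifferentiableAt ℝ
      (fun y : E => ((inner ℂ v y : ℂ) * (inner ℂ y w : ℂ)).re) z :=
    Complex.reCLM.differentiableAt.comp z (h2.mul h3)
  have h5 : DifferentiableAt ℝ (fun y : E => (1 - ‖y‖ ^ 2) ^ 2) z :=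
    ((differentiableAt_const (1 : ℝ)).sub h1).pow 2
  have h6 : DifferentiableAt ℝ (fun y : E => r ^ 2 * ((1 - ‖y‖ ^ 2) * (inner ℂ v w : ℂ).re +
      ((inner ℂ v y : ℂ) * (inner ℂ y w : ℂ)).re)) z :=
    ((((differentiableAt_const (1 : ℝ)).sub h1).mul_const _).add h4).const_mul _
  unfold met
  simp only [div_eq_mul_inv]
  exact h6.mul (h5.inv h0)

theorem fderiv_met (r : ℝ) {z : E} (hz : ‖z‖ < 1) (u v w : E) :
    fderiv ℝ (fun y => met r y v w) z u =
      r ^ 2 * ((-(2 * (inner ℂ z u : ℂ).re) * (inner ℂ v w : ℂ).re +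
        ((inner ℂ v u : ℂ) * (inner ℂ z w : ℂ) + (inner ℂ v z : ℂ) * (inner ℂ u w : ℂ)).re) *
          (1 - ‖z‖ ^ 2) +
        4 * (inner ℂ z u : ℂ).re * ((1 - ‖z‖ ^ 2) * (inner ℂ v w : ℂ).re +
          ((inner ℂ v z : ℂ) * (inner ℂ z w : ℂ)).re)) / (1 - ‖z‖ ^ 2) ^ 3 := by
  have hp : 0 < 1 - ‖z‖ ^ 2 := by nlinarith [norm_nonneg z]
  apply fderiv_of_line (met_differentiableAt r hz v w)
  have hl : HasDerivAt (fun s : ℝ => z + s • u) u 0 := by
    simpa using ((hasDerivAt_id (0 : ℝ)).smul_const u).const_add z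
  have hre : ∀ {f : ℝ → ℂ} {f' : ℂ}, HasDerivAt f f' 0 → HasDerivAt (fun s => (f s).re) f'.re 0 :=
    fun h => Complex.reCLM.hasFDerivAt.comp_hasDerivAt 0 h
  have h1 : HasDerivAt (fun s : ℝ => ‖z + s • u‖ ^ 2) (2 * (inner ℂ z u : ℂ).re) 0 := by
    have := hre (hl.inner ℂ hl)
    simp only [← normsq_eq] at this
    convert this using 1
    simp only [zero_smul, add_zero, Complex.add_re]
    rw [← inner_conj_symm u z, Complex.conj_re]
    ring
  have h2 := (hasDerivAt_const (0 : ℝ) v).inner ℂ hl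
  have h3 := hl.inner ℂ (hasDerivAt_const (0 : ℝ) w)
  have h4 := hre (h2.mul h3)
  have h5 := (((((hasDerivAt_const (0 : ℝ) (1 : ℝ)).sub h1).mul_const
    (inner ℂ v w : ℂ).re).add h4).const_mul (r ^ 2)).div
      (((hasDerivAt_const (0 : ℝ) (1 : ℝ)).sub h1).pow 2) (by simpa using hp.ne')
  refine HasDerivAt.congr_deriv h5 ?_
  simp only [Pi.sub_apply, Pi.add_apply, Pi.pow_apply, Pi.mul_apply, zero_smul, add_zero,
    inner_zero_left, inner_zero_right, zero_add, zero_sub]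
  field_simp
  push_cast
  ring

/-- Christoffel symbols of the second kind -/
noncomputable def gam (z u v : E) : E :=
  ((1 - ‖z‖ ^ 2 : ℝ) : ℂ)⁻¹ • ((inner ℂ z u : ℂ) • v + (inner ℂ z v : ℂ) • u)

theorem koszul_eq (r : ℝ) {z : E} (hz : ‖z‖ < 1) (u v w : E) :
    koszul r z u v w = met r z (gam z u v) w := by
  have hp : 0 < 1 - ‖z‖ ^ 2 := by nlinarith [norm_nonneg z]
  unfold koszul
  rw [fderiv_met r hz, fderiv_met r hz, fderiv_met r hz]
  unfold met gam
  simp only [inner_smul_left, inner_add_left]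
  rw [← inner_conj_symm v u, ← inner_conj_symm v z, ← inner_conj_symm u z,
    ← inner_conj_symm w v]
  generalize (inner ℂ z u : ℂ) = a
  generalize (inner ℂ z v : ℂ) = b
  generalize (inner ℂ z w : ℂ) = c
  generalize (inner ℂ u v : ℂ) = d
  generalize (inner ℂ u w : ℂ) = e
  generalize (inner ℂ v w : ℂ) = f
  generalize 1 - ‖z‖ ^ 2 = ρ at hp ⊢
  rw [← Complex.ofReal_inv]
  simp only [Complex.conj_ofReal, Complex.mul_re, Complex.add_re, Complex.ofReal_re,
    Complex.ofReal_im, Complex.mul_im, Complex.add_im, Complex.conj_re, Complex.conj_im]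
  field_simp
  ring

end Pool.Agent.Lib.MP_bb4e29_gt
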