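import Mathlib
import Pool.Agent.Lib.MP_bb4e29_gt.Koszul

namespace Pool.Agent.Lib.MP_bb4e29_gt

variable {E : Type} [NormedAddCommGroup E] [InnerProductSpace ℂ E]

/-- projection to the affine chart -/
noncomputable def proj (z : ℂ × E) : E := z.1⁻¹ • z.2

/-- differential of the projection -/
noncomputable def DD (z v : ℂ × E) : E := z.1⁻¹ • v.2 - (v.1 * z.1⁻¹ * z.1⁻¹) • z.2

theorem herm_add_right (x y z : ℂ × E) : herm x (y + z) = herm x y + herm x z := by
  simp only [herm, Prod.fst_add, Prod.snd_add, inner_add_right]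
  ring

theorem herm_smul_right (c : ℂ) (x y : ℂ × E) : herm x (c • y) = c * herm x y := by
  simp only [herm, Prod.smul_fst, Prod.smul_snd, inner_smul_right, smul_eq_mul]
  ring

theorem herm_sub_right (x y z : ℂ × E) : herm x (y - z) = herm x y - herm x z := by
  simp only [herm, Prod.fst_sub, Prod.snd_sub, inner_sub_right]
  ring

theorem herm_conj (x y : ℂ × E) : starRingEnd ℂ (herm x y) = herm y x := by
  simp only [herm, map_add, map_neg, map_mul, Complex.conj_conj, inner_conj_symm]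
  ring

theorem herm_add_left (x y z : ℂ × E) : herm (x + y) z = herm x z + herm y z := by
  simp only [herm, Prod.fst_add, Prod.snd_add, inner_add_left, map_add]
  ring

theorem herm_sub_left (x y z : ℂ × E) : herm (x - y) z = herm x z - herm y z := by
  simp only [herm, Prod.fst_sub, Prod.snd_sub, inner_sub_left, map_sub]
  ring

theorem herm_smul_left (c : ℂ) (x y : ℂ × E) :
    herm (c • x) y = starRingEnd ℂ c * herm x y := by
  simp only [herm, Prod.smul_fst, Prod.smul_snd, inner_smul_left, smul_eq_mul, map_mul]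
  ring

theorem herm_self (x : ℂ × E) : herm x x = ((‖x.2‖ ^ 2 - ‖x.1‖ ^ 2 : ℝ) : ℂ) := by
  simp only [herm, inner_self_eq_norm_sq_to_K, Complex.conj_mul']
  push_cast
  ring_nf
  rfl

theorem norm_rel {z : ℂ × E} (hz : herm z z = -1) : ‖z.2‖ ^ 2 = ‖z.1‖ ^ 2 - 1 := by
  rw [herm_self] at hz
  have : (‖z.2‖ ^ 2 - ‖z.1‖ ^ 2 : ℝ) = -1 := by exact_mod_cast hz
  linarith

theorem fst_ne {z : ℂ × E} (hz : herm z z = -1) : z.1 ≠ 0 := by
  intro h
  have := norm_rel hz
  rw [h, norm_zero] at this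
  nlinarith [sq_nonneg ‖z.2‖]

theorem one_sub_proj {z : ℂ × E} (hz : herm z z = -1) :
    1 - ‖proj z‖ ^ 2 = (‖z.1‖ ^ 2)⁻¹ := by
  have h0 : ‖z.1‖ ≠ 0 := norm_ne_zero_iff.2 (fst_ne hz)
  unfold proj
  rw [norm_smul, mul_pow, norm_rel hz, norm_inv]
  field_simp
  ring

theorem proj_lt {z : ℂ × E} (hz : herm z z = -1) : ‖proj z‖ < 1 := by
  have h0 : ‖z.1‖ ≠ 0 := norm_ne_zero_iff.2 (fst_ne hz)
  have h1 := one_sub_proj hz
  have h2 : 0 < (‖z.1‖ ^ 2)⁻¹ := by positivity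
  nlinarith [norm_nonneg (proj z)]

theorem inner_snd (x y : ℂ × E) :
    (inner ℂ x.2 y.2 : ℂ) = herm x y + starRingEnd ℂ x.1 * y.1 := by
  simp [herm]

theorem normsq_cast (a : ℂ) : ((‖a‖ ^ 2 : ℝ) : ℂ) = starRingEnd ℂ a * a := by
  rw [Complex.conj_mul']
  push_cast
  rfl

theorem inner_proj_DD {z : ℂ × E} (hz : herm z z = -1) (v : ℂ × E) :
    (inner ℂ (proj z) (DD z v) : ℂ) = (herm z v + v.1 * z.1⁻¹) * (starRingEnd ℂ z.1 * z.1)⁻¹ := by
  have h0 := fst_ne hz
  have h0' : starRingEnd ℂ z.1 ≠ 0 := by simpa using h0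
  unfold proj DD
  simp only [inner_smul_left, inner_smul_right, inner_sub_right, inner_snd, hz, map_inv₀]
  field_simp
  ring

theorem inner_DD_DD {z : ℂ × E} (hz : herm z z = -1) (v w : ℂ × E) :
    (inner ℂ (DD z v) (DD z w) : ℂ) = (herm v w - w.1 * z.1⁻¹ * herm v z -
      starRingEnd ℂ v.1 * (starRingEnd ℂ z.1)⁻¹ * herm z w -
      starRingEnd ℂ v.1 * (starRingEnd ℂ z.1)⁻¹ * w.1 * z.1⁻¹) * (starRingEnd ℂ z.1 * z.1)⁻¹ := by
  have h0 := fst_ne hz
  have h0' : starRingEnd ℂ z.1 ≠ 0 := by simpa using h0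
  unfold DD
  simp only [inner_smul_left, inner_smul_right, inner_sub_right, inner_sub_left, inner_snd, hz,
    map_inv₀, map_mul]
  field_simp
  ring

theorem met_DD (r : ℝ) {z : ℂ × E} (hz : herm z z = -1) (v w : ℂ × E) :
    met r (proj z) (DD z v) (DD z w) = r ^ 2 * (herm v w + herm v z * herm z w).re := by
  have h0 := fst_ne hz
  have h0' : starRingEnd ℂ z.1 ≠ 0 := by simpa using h0
  have h1 : ‖z.1‖ ≠ 0 := norm_ne_zero_iff.2 h0
  unfold met
  rw [one_sub_proj hz, ← inner_conj_symm (DD z v) (proj z), inner_proj_DD hz, inner_proj_DD hz,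
    inner_DD_DD hz, mul_div_assoc]
  congr 1
  have key : ((((‖z.1‖ ^ 2)⁻¹ : ℝ) : ℂ) * ((herm v w - w.1 * z.1⁻¹ * herm v z -
      starRingEnd ℂ v.1 * (starRingEnd ℂ z.1)⁻¹ * herm z w -
      starRingEnd ℂ v.1 * (starRingEnd ℂ z.1)⁻¹ * w.1 * z.1⁻¹) * (starRingEnd ℂ z.1 * z.1)⁻¹) +
      starRingEnd ℂ ((herm z v + v.1 * z.1⁻¹) * (starRingEnd ℂ z.1 * z.1)⁻¹) *
      ((herm z w + w.1 * z.1⁻¹) * (starRingEnd ℂ z.1 * z.1)⁻¹)) =
      ((((‖z.1‖ ^ 2)⁻¹ ^ 2 : ℝ) : ℂ)) * (herm v w + herm v z * herm z w) := by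
    rw [Complex.ofReal_pow, Complex.ofReal_inv, normsq_cast]
    simp only [map_mul, map_add, map_inv₀, Complex.conj_conj, herm_conj]
    field_simp
    ring
  have k2 := congrArg Complex.re key
  rw [Complex.add_re, Complex.re_ofReal_mul, Complex.re_ofReal_mul] at k2
  rw [k2]
  field_simp

theorem conn_lift {z : ℂ × E} (hz : herm z z = -1) (z' N : ℂ × E) :
    gam (proj z) (DD z z') (DD z N) = (herm z z' + z'.1 * z.1⁻¹) • DD z N +
      (herm z N + N.1 * z.1⁻¹) • DD z z' := by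
  have h0 := fst_ne hz
  have h0' : starRingEnd ℂ z.1 ≠ 0 := by simpa using h0
  unfold gam
  rw [one_sub_proj hz, inner_proj_DD hz, inner_proj_DD hz, Complex.ofReal_inv, normsq_cast,
    smul_add, smul_smul, smul_smul]
  congr 2 <;> field_simp

theorem hasDerivAt_proj {z : ℝ → ℂ × E} {z' : ℂ × E} (hz : HasDerivAt z z' 0)
    (h0 : (z 0).1 ≠ 0) : HasDerivAt (fun s => proj (z s)) (DD (z 0) z') 0 := by
  have h1 : HasDerivAt (fun s => (z s).1) z'.1 0 :=
    (ContinuousLinearMap.fst ℝ ℂ E).hasFDerivAt.comp_hasDerivAt 0 hz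
  have h2 : HasDerivAt (fun s => (z s).2) z'.2 0 :=
    (ContinuousLinearMap.snd ℝ ℂ E).hasFDerivAt.comp_hasDerivAt 0 hz
  have h3 := (h1.inv h0).smul h2
  refine HasDerivAt.congr_deriv h3 ?_
  unfold DD
  simp only [Pi.inv_apply]
  rw [sub_eq_add_neg, ← neg_smul]
  congr 2
  field_simp

theorem hasDerivAt_DD {z N : ℝ → ℂ × E} {z' N' : ℂ × E} (hz : HasDerivAt z z' 0)
    (hN : HasDerivAt N N' 0) (h0 : (z 0).1 ≠ 0) :
    HasDerivAt (fun s => DD (z s) (N s)) (DD (z 0) N' - (z'.1 * (z 0).1⁻¹) • DD (z 0) (N 0) -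
      ((N 0).1 * (z 0).1⁻¹) • DD (z 0) z') 0 := by
  have h1 : HasDerivAt (fun s => (z s).1) z'.1 0 :=
    (ContinuousLinearMap.fst ℝ ℂ E).hasFDerivAt.comp_hasDerivAt 0 hz
  have h2 : HasDerivAt (fun s => (z s).2) z'.2 0 :=
    (ContinuousLinearMap.snd ℝ ℂ E).hasFDerivAt.comp_hasDerivAt 0 hz
  have h3 : HasDerivAt (fun s => (N s).1) N'.1 0 :=
    (ContinuousLinearMap.fst ℝ ℂ E).hasFDerivAt.comp_hasDerivAt 0 hN
  have h4 : HasDerivAt (fun s => (N s).2) N'.2 0 :=
    (ContinuousLinearMap.snd ℝ ℂ E).hasFDerivAt.comp_hasDerivAt 0 hN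
  have h5 := h1.inv h0
  have h6 := (h5.smul h4).sub (((h3.mul h5).mul h5).smul h2)
  refine HasDerivAt.congr_deriv h6 ?_
  unfold DD
  simp only [Pi.inv_apply, Pi.mul_apply]
  have e : -z'.1 / (z 0).1 ^ 2 = -z'.1 * (z 0).1⁻¹ * (z 0).1⁻¹ := by field_simp
  rw [e]
  module

theorem DD_add (z v w : ℂ × E) : DD z (v + w) = DD z v + DD z w := by
  unfold DD
  simp only [Prod.fst_add, Prod.snd_add]
  module

theorem DD_smul (z v : ℂ × E) (c : ℂ) : DD z (c • v) = c • DD z v := by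
  unfold DD
  simp only [Prod.smul_fst, Prod.smul_snd, smul_eq_mul]
  module

theorem DD_self {z : ℂ × E} (h0 : z.1 ≠ 0) : DD z z = 0 := by
  unfold DD
  rw [mul_inv_cancel₀ h0, one_mul, sub_self]

theorem DD_eq_zero {z v : ℂ × E} (h0 : z.1 ≠ 0) (h : DD z v = 0) : v = (v.1 * z.1⁻¹) • z := by
  unfold DD at h
  rw [sub_eq_zero] at h
  refine Prod.ext ?_ ?_
  · simp only [Prod.smul_fst, smul_eq_mul]
    field_simp
  · have := congrArg (fun y => z.1 • y) h
    simp only [smul_smul, mul_inv_cancel₀ h0, one_smul] at this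
    rw [this, Prod.smul_snd]
    congr 1
    field_simp

theorem met_add (r : ℝ) (z u v w : E) : met r z (u + v) w = met r z u w + met r z v w := by
  unfold met
  simp only [inner_add_left, Complex.add_re, add_mul]
  ring

theorem met_neg (r : ℝ) (z u w : E) : met r z (-u) w = -met r z u w := by
  unfold met
  simp only [inner_neg_left, Complex.neg_re, neg_mul]
  ring

theorem gam_smul (z u v : E) (c : ℂ) : gam z u (c • v) = c • gam z u v := by
  unfold gam
  simp only [inner_smul_right]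
  module

end Pool.Agent.Lib.MP_bb4e29_gt
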