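import Mathlib
import Pool.Agent.Lib.MP_bb4e29_gt.Lift

namespace Pool.Agent.Lib.MP_bb4e29_gt

open Complex

variable {E : Type} [NormedAddCommGroup E] [InnerProductSpace ℂ E]

/-- an orthonormal pair of vectors -/
structure Fr (E : Type) [NormedAddCommGroup E] [InnerProductSpace ℂ E] : Type where
  e0 : E
  e1 : E
  h00 : (inner ℂ e0 e0 : ℂ) = 1
  h11 : (inner ℂ e1 e1 : ℂ) = 1
  h01 : (inner ℂ e0 e1 : ℂ) = 0

variable (F : Fr E)

theorem Fr.h10 : (inner ℂ F.e1 F.e0 : ℂ) = 0 := by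
  rw [← inner_conj_symm, F.h01, map_zero]

/-- orthogonal complement of the pair -/
noncomputable def Fr.K : Submodule ℂ E := (Submodule.span ℂ {F.e0, F.e1})ᗮ

theorem Fr.h0k (k : F.K) : (inner ℂ F.e0 (k : E) : ℂ) = 0 :=
  Submodule.inner_right_of_mem_orthogonal (Submodule.subset_span (by simp)) k.2

theorem Fr.h1k (k : F.K) : (inner ℂ F.e1 (k : E) : ℂ) = 0 :=
  Submodule.inner_right_of_mem_orthogonal (Submodule.subset_span (by simp)) k.2

theorem Fr.hk0 (k : F.K) : (inner ℂ (k : E) F.e0 : ℂ) = 0 := by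
  rw [← inner_conj_symm, F.h0k, map_zero]

theorem Fr.hk1 (k : F.K) : (inner ℂ (k : E) F.e1 : ℂ) = 0 := by
  rw [← inner_conj_symm, F.h1k, map_zero]

theorem Fr.mem_K {v : E} (h0 : (inner ℂ F.e0 v : ℂ) = 0) (h1 : (inner ℂ F.e1 v : ℂ) = 0) :
    v ∈ F.K := by
  unfold Fr.K
  rw [Submodule.mem_orthogonal]
  intro u hu
  obtain ⟨a, b, rfl⟩ := Submodule.mem_span_pair.1 hu
  simp [inner_add_left, inner_smul_left, h0, h1]

/-- vector with given coordinates in the moving frame -/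
noncomputable def Fr.T (t : ℝ) (α s y : ℂ) (k : F.K) : ℂ × E :=
  (α * (1 + (t : ℂ) ^ 2 / 4) + s * t / 2 + y / 2,
    (α * (1 - (t : ℂ) ^ 2 / 4) - s * t / 2 - y / 2) • F.e0 + (α * t + s) • F.e1 + (k : E))

theorem Fr.herm_T (t : ℝ) (α s y α' s' y' : ℂ) (k k' : F.K) :
    herm (F.T t α s y k) (F.T t α' s' y' k') = -(starRingEnd ℂ α * y') - starRingEnd ℂ y * α' +
      starRingEnd ℂ s * s' + (inner ℂ (k : E) (k' : E) : ℂ) := by
  unfold herm Fr.T
  simp only [inner_add_left, inner_add_right, inner_smul_left, inner_smul_right, F.h00, F.h11,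
    F.h01, F.h10, F.h0k, F.h1k, F.hk0, F.hk1, map_add, map_sub, map_mul, map_div₀, map_pow,
    map_one, conj_ofReal, map_ofNat]
  ring

theorem Fr.T_add (t : ℝ) (α s y α' s' y' : ℂ) (k k' : F.K) :
    F.T t α s y k + F.T t α' s' y' k' = F.T t (α + α') (s + s') (y + y') (k + k') := by
  unfold Fr.T
  refine Prod.ext ?_ ?_
  · simp only [Prod.fst_add]
    ring
  · simp only [Prod.snd_add, Submodule.coe_add]
    module

theorem Fr.T_smul (t : ℝ) (c α s y : ℂ) (k : F.K) :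
    c • F.T t α s y k = F.T t (c * α) (c * s) (c * y) (c • k) := by
  unfold Fr.T
  refine Prod.ext ?_ ?_
  · simp only [Prod.smul_fst, smul_eq_mul]
    ring
  · simp only [Prod.smul_snd, Submodule.coe_smul]
    module

theorem Fr.T_inj {t : ℝ} {α s y α' s' y' : ℂ} {k k' : F.K}
    (h : F.T t α s y k = F.T t α' s' y' k') : α = α' ∧ s = s' ∧ y = y' ∧ k = k' := by
  have h1 := congrArg (herm (F.T t 0 0 1 0)) h
  have h2 := congrArg (herm (F.T t 0 1 0 0)) h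
  have h3 := congrArg (herm (F.T t 1 0 0 0)) h
  simp only [F.herm_T] at h1 h2 h3
  simp at h1 h2 h3
  subst h1 h2 h3
  have h4 := congrArg Prod.snd h
  simp only [Fr.T, add_right_inj] at h4
  exact ⟨rfl, rfl, rfl, Subtype.ext h4⟩

theorem Fr.T_shift (t τ : ℝ) (α s y : ℂ) (k : F.K) :
    F.T t α s y k = F.T τ α (s + α * (t - τ)) (y + s * (t - τ) + α * (t - τ) ^ 2 / 2) k := by
  unfold Fr.T
  refine Prod.ext ?_ ?_
  · simp only
    ring
  · simp only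
    module

theorem Fr.T_surj (t : ℝ) (v : ℂ × E) : ∃ α s y k, v = F.T t α s y k := by
  have h0 : ∃ α s y k, v = F.T 0 α s y k := by
    refine ⟨(v.1 + inner ℂ F.e0 v.2) / 2, inner ℂ F.e1 v.2, v.1 - inner ℂ F.e0 v.2,
      ⟨v.2 - (inner ℂ F.e0 v.2 : ℂ) • F.e0 - (inner ℂ F.e1 v.2 : ℂ) • F.e1, F.mem_K ?_ ?_⟩, ?_⟩
    · simp only [inner_sub_right, inner_smul_right, F.h00, F.h01]
      ring
    · simp only [inner_sub_right, inner_smul_right, F.h11, F.h10]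
      ring
    · unfold Fr.T
      refine Prod.ext ?_ ?_
      · simp only [ofReal_zero]
        ring
      · simp only [ofReal_zero]
        module
  obtain ⟨α, s, y, k, h⟩ := h0
  exact ⟨_, _, _, _, h.trans (F.T_shift 0 t α s y k)⟩

theorem Fr.hasDerivAt_T {t : ℝ → ℝ} {α σ y : ℝ → ℂ} {k : ℝ → F.K} {t' : ℝ} {α' σ' y' : ℂ}
    {k' : F.K} (ht : HasDerivAt t t' 0) (hα : HasDerivAt α α' 0) (hσ : HasDerivAt σ σ' 0)
    (hy : HasDerivAt y y' 0) (hk : HasDerivAt (fun s => (k s : E)) (k' : E) 0) :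
    HasDerivAt (fun s => F.T (t s) (α s) (σ s) (y s) (k s))
      (F.T (t 0) α' (σ' + α 0 * t') (y' + σ 0 * t') k') 0 := by
  have ht' := ht.ofReal_comp
  have h2 := (ht'.pow 2).div_const 4
  have h1 := hasDerivAt_const (0 : ℝ) (1 : ℂ)
  have h3 := (hσ.mul ht').div_const 2
  have h4 := hy.div_const 2
  have ha := ((hα.mul (h1.add h2)).add h3).add h4
  have hb := (((((hα.mul (h1.sub h2)).sub h3).sub h4).smul_const F.e0).add
    (((hα.mul ht').add hσ).smul_const F.e1)).add hk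
  refine HasDerivAt.congr_deriv (ha.prodMk hb) ?_
  unfold Fr.T
  refine Prod.ext ?_ ?_
  · simp only [Pi.add_apply, Pi.pow_apply]
    push_cast
    ring
  · simp only [Pi.sub_apply, Pi.pow_apply]
    push_cast
    module

/-- parameter space -/
abbrev Fr.P : Type := ℝ × ℝ × ℝ × F.K

noncomputable def Fr.rx (u : F.P) : ℝ := (1 + u.2.1 ^ 2 + ‖(u.2.2.2 : E)‖ ^ 2) / 2

noncomputable def Fr.xx (u : F.P) : ℂ := F.rx u + u.2.2.1 * I

noncomputable def Fr.zz (u : F.P) : ℂ × E := F.T u.1 (F.xx u) (u.2.1 * I) 1 u.2.2.2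

noncomputable def Fr.pp (t : ℝ) : ℂ × E := F.T t 1 0 0 0

noncomputable def Fr.dx (u X : F.P) : ℂ :=
  (u.2.1 * X.2.1 + (inner ℂ (u.2.2.2 : E) (X.2.2.2 : E) : ℂ).re : ℝ) + X.2.2.1 * I

noncomputable def Fr.dz (u X : F.P) : ℂ × E :=
  F.T u.1 (F.dx u X) (X.2.1 * I + F.xx u * X.1) (u.2.1 * I * X.1) X.2.2.2

theorem Fr.rx_pos (u : F.P) : 1 / 2 ≤ F.rx u := by
  unfold Fr.rx
  nlinarith [sq_nonneg u.2.1, sq_nonneg ‖(u.2.2.2 : E)‖]

theorem Fr.herm_zz (u : F.P) : herm (F.zz u) (F.zz u) = -1 := by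
  unfold Fr.zz
  rw [F.herm_T, inner_self_eq_norm_sq_to_K]
  unfold Fr.xx Fr.rx
  simp only [map_add, map_mul, conj_ofReal, conj_I, map_one]
  push_cast
  have : (((‖(u.2.2.2 : E)‖ : ℝ) : ℂ)) = RCLike.ofReal ‖(u.2.2.2 : E)‖ := rfl
  rw [← this]
  linear_combination (-(u.2.1 : ℂ) ^ 2) * I_mul_I

theorem Fr.hasDerivAt_zz (u X : F.P) :
    HasDerivAt (fun s : ℝ => F.zz (u + s • X)) (F.dz u X) 0 := by
  have hl : ∀ a b : ℝ, HasDerivAt (fun s : ℝ => a + s * b) b 0 := fun a b => by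
    simpa using ((hasDerivAt_id (0 : ℝ)).mul_const b).const_add a
  have hk : HasDerivAt (fun s : ℝ => (((u + s • X).2.2.2 : F.K) : E)) (X.2.2.2 : E) 0 := by
    simpa using ((hasDerivAt_id (0 : ℝ)).smul_const (X.2.2.2 : E)).const_add (u.2.2.2 : E)
  have ht : HasDerivAt (fun s : ℝ => (u + s • X).1) X.1 0 := hl _ _
  have hb : HasDerivAt (fun s : ℝ => (u + s • X).2.1) X.2.1 0 := hl _ _
  have hg : HasDerivAt (fun s : ℝ => (u + s • X).2.2.1) X.2.2.1 0 := hl _ _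
  have hn : HasDerivAt (fun s : ℝ => ‖(((u + s • X).2.2.2 : F.K) : E)‖ ^ 2)
      (2 * (inner ℂ (u.2.2.2 : E) (X.2.2.2 : E) : ℂ).re) 0 := by
    have := Complex.reCLM.hasFDerivAt.comp_hasDerivAt 0 (hk.inner ℂ hk)
    refine HasDerivAt.congr_deriv (this.congr_of_eventuallyEq
      (Filter.Eventually.of_forall fun s => normsq_eq _)) ?_
    simp only [zero_smul, add_zero, reCLM_apply, add_re]
    rw [← inner_conj_symm (X.2.2.2 : E) (u.2.2.2 : E), conj_re]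
    ring
  have hr : HasDerivAt (fun s : ℝ => F.rx (u + s • X))
      (u.2.1 * X.2.1 + (inner ℂ (u.2.2.2 : E) (X.2.2.2 : E) : ℂ).re) 0 := by
    refine HasDerivAt.congr_deriv
      ((((hasDerivAt_const (0 : ℝ) (1 : ℝ)).add (hb.pow 2)).add hn).div_const 2) ?_
    simp only [zero_smul, add_zero]
    push_cast
    ring
  have hx : HasDerivAt (fun s : ℝ => F.xx (u + s • X)) (F.dx u X) 0 :=
    hr.ofReal_comp.add (hg.ofReal_comp.mul_const I)
  have := F.hasDerivAt_T ht hx (hb.ofReal_comp.mul_const I) (hasDerivAt_const (0 : ℝ) (1 : ℂ)) hk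
  refine HasDerivAt.congr_deriv this ?_
  simp [Fr.dz]

theorem Fr.hasDerivAt_pp (u X : F.P) :
    HasDerivAt (fun s : ℝ => F.pp (u + s • X).1) (F.T u.1 0 X.1 0 0) 0 := by
  have ht : HasDerivAt (fun s : ℝ => (u + s • X).1) X.1 0 := by
    simpa using ((hasDerivAt_id (0 : ℝ)).mul_const X.1).const_add u.1
  have := F.hasDerivAt_T (k := fun _ => 0) (k' := 0) ht (hasDerivAt_const (0 : ℝ) (1 : ℂ))
    (hasDerivAt_const (0 : ℝ) (0 : ℂ)) (hasDerivAt_const (0 : ℝ) (0 : ℂ))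
    (hasDerivAt_const (0 : ℝ) _)
  refine HasDerivAt.congr_deriv this ?_
  simp

theorem Fr.contDiff_T {Q : Type} [NormedAddCommGroup Q] [NormedSpace ℝ Q] {t : Q → ℝ}
    {α σ y : Q → ℂ} {k : Q → F.K} (ht : ContDiff ℝ ⊤ t) (hα : ContDiff ℝ ⊤ α)
    (hσ : ContDiff ℝ ⊤ σ) (hy : ContDiff ℝ ⊤ y) (hk : ContDiff ℝ ⊤ (fun q => (k q : E))) :
    ContDiff ℝ ⊤ (fun q => F.T (t q) (α q) (σ q) (y q) (k q)) := by
  have ht' : ContDiff ℝ ⊤ (fun q => (t q : ℂ)) := ofRealCLM.contDiff.comp ht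
  unfold Fr.T
  fun_prop

theorem Fr.contDiff_zz : ContDiff ℝ ⊤ F.zz := by
  have hk : ContDiff ℝ ⊤ (fun u : F.P => ((u.2.2.2 : F.K) : E)) :=
    (F.K.subtypeL.restrictScalars ℝ).contDiff.comp (by fun_prop)
  have hr : ContDiff ℝ ⊤ F.rx := by
    have := hk.norm_sq ℂ
    unfold Fr.rx
    fun_prop
  have h1 : ContDiff ℝ ⊤ (fun u : F.P => (F.rx u : ℂ)) := ofRealCLM.contDiff.comp hr
  have h2 : ContDiff ℝ ⊤ (fun u : F.P => (u.2.2.1 : ℂ)) := ofRealCLM.contDiff.comp (by fun_prop)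
  have h3 : ContDiff ℝ ⊤ (fun u : F.P => (u.2.1 : ℂ)) := ofRealCLM.contDiff.comp (by fun_prop)
  refine F.contDiff_T (by fun_prop) ?_ (h3.mul contDiff_const) contDiff_const hk
  exact h1.add (h2.mul contDiff_const)

theorem Fr.contDiff_pp : ContDiff ℝ ⊤ F.pp :=
  F.contDiff_T (k := fun _ => 0) contDiff_id contDiff_const contDiff_const contDiff_const
    contDiff_const

end Pool.Agent.Lib.MP_bb4e29_gt
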