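import Mathlib
import Pool.Agent.Lib.MP_bb4e29_gt.Surface

namespace Pool.Agent.Lib.MP_bb4e29_gt

open Complex

variable {E : Type} [NormedAddCommGroup E] [InnerProductSpace ℂ E] (F : Fr E)

noncomputable def Fr.Phi (u : F.P) : E := proj (F.zz u)

noncomputable def Fr.xi (r : ℝ) (u : F.P) : E := ((r⁻¹ : ℝ) : ℂ) • DD (F.zz u) (F.pp u.1)

theorem Fr.zz_ne (u : F.P) : (F.zz u).1 ≠ 0 := fst_ne (F.herm_zz u)

theorem Fr.contDiff_inv : ContDiff ℝ ⊤ (fun u => (F.zz u).1⁻¹) :=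
  F.contDiff_zz.fst.inv F.zz_ne

theorem Fr.contDiff_Phi : ContDiff ℝ ⊤ F.Phi :=
  F.contDiff_inv.smul F.contDiff_zz.snd

theorem Fr.contDiff_xi (r : ℝ) : ContDiff ℝ ⊤ (F.xi r) := by
  have h1 : ContDiff ℝ ⊤ (fun u : F.P => F.pp u.1) := F.contDiff_pp.comp contDiff_fst
  have h2 := F.contDiff_inv
  exact ((h2.smul h1.snd).sub (((h1.fst.mul h2).mul h2).smul F.contDiff_zz.snd)).const_smul _

theorem Fr.fderiv_Phi (u X : F.P) : fderiv ℝ F.Phi u X = DD (F.zz u) (F.dz u X) := by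
  apply fderiv_of_line (F.contDiff_Phi.differentiable (by simp) u)
  have := hasDerivAt_proj (F.hasDerivAt_zz u X) (F.zz_ne _)
  refine HasDerivAt.congr_deriv this ?_
  simp

theorem Fr.fderiv_xi (r : ℝ) (u X : F.P) : fderiv ℝ (F.xi r) u X =
    ((r⁻¹ : ℝ) : ℂ) • (DD (F.zz u) (F.T u.1 0 X.1 0 0) -
      ((F.dz u X).1 * (F.zz u).1⁻¹) • DD (F.zz u) (F.pp u.1) -
      ((F.pp u.1).1 * (F.zz u).1⁻¹) • DD (F.zz u) (F.dz u X)) := by
  apply fderiv_of_line ((F.contDiff_xi r).differentiable (by simp) u)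
  have := (hasDerivAt_DD (F.hasDerivAt_zz u X) (F.hasDerivAt_pp u X) (F.zz_ne _)).const_smul
    ((r⁻¹ : ℝ) : ℂ)
  refine HasDerivAt.congr_deriv this ?_
  simp

noncomputable def Fr.mu (u : F.P) : ℝ := (F.rx u + u.2.1 ^ 2)⁻¹

noncomputable def Fr.ph (u X : F.P) : ℝ :=
  -2 * u.2.1 * F.rx u * X.1 - X.2.2.1 + (inner ℂ (u.2.2.2 : E) (X.2.2.2 : E) : ℂ).im

theorem Fr.den_pos (u : F.P) : 0 < F.rx u + u.2.1 ^ 2 := by
  have := F.rx_pos u
  positivity

theorem Fr.mu_pos (u : F.P) : 0 < F.mu u := inv_pos.2 (F.den_pos u)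

theorem Fr.mu_mul (u : F.P) : F.mu u * (F.rx u + u.2.1 ^ 2) = 1 :=
  inv_mul_cancel₀ (F.den_pos u).ne'

theorem Fr.ph_add (u X Y : F.P) : F.ph u (X + Y) = F.ph u X + F.ph u Y := by
  simp only [Fr.ph, Prod.fst_add, Prod.snd_add, Submodule.coe_add, inner_add_right, add_im]
  ring

theorem Fr.ph_smul (u X : F.P) (c : ℝ) : F.ph u (c • X) = c * F.ph u X := by
  have : (((c • X).2.2.2 : F.K) : E) = (c : ℂ) • (X.2.2.2 : E) := by
    rw [coe_smul]
    rfl
  unfold Fr.ph
  rw [this]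
  simp only [inner_smul_right, Prod.smul_fst, Prod.smul_snd, smul_eq_mul,
    im_ofReal_mul]
  ring

/-- the unscaled shape operator as a function -/
noncomputable def Fr.A0 (u X : F.P) : F.P :=
  (X.1 - F.mu u * X.1, X.2.1 + F.mu u * X.1 * u.2.2.1,
    X.2.2.1 - F.mu u * X.1 * (u.2.1 * F.rx u) - F.ph u X,
    X.2.2.2 - (((F.mu u * X.1 * u.2.1 : ℝ) : ℂ) * I) • u.2.2.2)

noncomputable def Fr.A (r : ℝ) (u : F.P) : F.P →ₗ[ℝ] F.P where
  toFun X := r⁻¹ • F.A0 u X
  map_add' X Y := by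
    rw [← smul_add]
    congr 1
    simp only [Fr.A0, F.ph_add, Prod.fst_add, Prod.snd_add, Prod.mk_add_mk, Prod.mk.injEq]
    refine ⟨by ring, by ring, by ring, ?_⟩
    push_cast
    module
  map_smul' c X := by
    rw [RingHom.id_apply, smul_comm c]
    congr 1
    simp only [Fr.A0, F.ph_smul, Prod.smul_fst, Prod.smul_snd, Prod.smul_mk, smul_eq_mul,
      Prod.mk.injEq]
    refine ⟨by ring, by ring, by ring, ?_⟩
    simp only [← coe_smul]
    push_cast
    module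

noncomputable def Fr.W (r : ℝ) (_u : F.P) : F.P := (0, 0, -r⁻¹, 0)

theorem Fr.herm_zz_dz (u X : F.P) : herm (F.zz u) (F.dz u X) = F.ph u X * I := by
  unfold Fr.zz Fr.dz
  rw [F.herm_T]
  apply Complex.ext <;> simp [Fr.xx, Fr.dx, Fr.ph] <;> ring

theorem Fr.herm_zz_pp (u : F.P) : herm (F.zz u) (F.pp u.1) = -1 := by
  unfold Fr.zz Fr.pp
  rw [F.herm_T]
  simp

theorem Fr.herm_pp_zz (u : F.P) : herm (F.pp u.1) (F.zz u) = -1 := by
  rw [← herm_conj, F.herm_zz_pp]
  simp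

theorem Fr.dz_smul (u X : F.P) (c : ℝ) : F.dz u (c • X) = (c : ℂ) • F.dz u X := by
  have : ((c • X).2.2.2 : F.K) = (c : ℂ) • (X.2.2.2 : F.K) := by
    rw [coe_smul]
    rfl
  unfold Fr.dz
  rw [F.T_smul, this]
  congr 1
  · unfold Fr.dx
    rw [this]
    simp only [Submodule.coe_smul, inner_smul_right, Prod.smul_fst, Prod.smul_snd,
      smul_eq_mul, re_ofReal_mul]
    push_cast
    ring
  · simp only [Prod.smul_fst, Prod.smul_snd, smul_eq_mul]
    push_cast
    ring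
  · simp only [Prod.smul_fst, smul_eq_mul]
    push_cast
    ring

theorem Fr.dz_A0 (u X : F.P) : F.dz u (F.A0 u X) = F.dz u X + (-1 : ℂ) • F.T u.1 0 X.1 0 0 +
    (-(F.ph u X * I)) • F.pp u.1 + (-((F.mu u * X.1 * u.2.1 : ℝ) : ℂ) * I) • F.zz u := by
  have hm := F.mu_mul u
  unfold Fr.dz Fr.pp Fr.zz
  simp only [F.T_smul, F.T_add]
  congr 1
  · simp only [Fr.dx, Fr.A0, Submodule.coe_sub, Submodule.coe_smul, inner_sub_right,
      inner_smul_right, inner_self_eq_norm_sq_to_K]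
    apply Complex.ext
    · simp [Fr.xx, ← ofReal_pow]
      ring
    · simp [Fr.xx, ← ofReal_pow]
      ring
  · apply Complex.ext
    · simp [Fr.xx, Fr.A0]
      linear_combination (-X.1) * hm
    · simp [Fr.xx, Fr.A0]
      ring
  · apply Complex.ext
    · simp [Fr.A0]
    · simp [Fr.A0]
      ring
  · simp only [Fr.A0]
    module

theorem Fr.shape (r : ℝ) (u X : F.P) : fderiv ℝ F.Phi u (F.A r u X) =
    -(fderiv ℝ (F.xi r) u X + gam (F.Phi u) (fderiv ℝ F.Phi u X) (F.xi r u)) := by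
  rw [F.fderiv_Phi, F.fderiv_Phi, F.fderiv_xi]
  unfold Fr.Phi Fr.xi
  rw [gam_smul, conn_lift (F.herm_zz u), F.herm_zz_dz, F.herm_zz_pp]
  change DD _ (F.dz u (r⁻¹ • F.A0 u X)) = _
  rw [F.dz_smul, F.dz_A0]
  simp only [DD_smul, DD_add, DD_self (F.zz_ne u)]
  module

theorem Fr.inj (u : F.P) : Function.Injective (fderiv ℝ F.Phi u) := by
  rw [injective_iff_map_eq_zero]
  intro X hX
  rw [F.fderiv_Phi] at hX
  have h := DD_eq_zero (F.zz_ne u) hX
  generalize (F.dz u X).1 * (F.zz u).1⁻¹ = c at h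
  unfold Fr.dz Fr.zz at h
  rw [F.T_smul] at h
  obtain ⟨h1, h2, h3, h4⟩ := F.T_inj h
  rw [mul_one] at h3
  subst h3
  have h5 := congrArg Complex.re h2
  simp [Fr.xx] at h5
  have h6 : X.1 = 0 := by
    have : (F.rx u + u.2.1 ^ 2) * X.1 = 0 := by linear_combination h5
    exact (mul_eq_zero.1 this).resolve_left (F.den_pos u).ne'
  have h7 := congrArg Complex.im h2
  have h8 := congrArg Complex.im h1
  simp [h6, Fr.dx] at h4 h7 h8
  exact Prod.ext h6 (Prod.ext h7 (Prod.ext h8 h4))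

theorem Fr.unit {r : ℝ} (hr : 0 < r) (u : F.P) : met r (F.Phi u) (F.xi r u) (F.xi r u) = 1 := by
  unfold Fr.Phi Fr.xi
  rw [← DD_smul, met_DD r (F.herm_zz u), herm_smul_left, herm_smul_left, herm_smul_right,
    herm_smul_right, F.herm_zz_pp, F.herm_pp_zz]
  have : herm (F.pp u.1) (F.pp u.1) = 0 := by
    unfold Fr.pp
    rw [F.herm_T]
    simp
  rw [this, conj_ofReal]
  simp only [mul_zero, zero_add, mul_neg, mul_one, neg_mul, neg_neg, ← ofReal_mul, ofReal_re]
  field_simp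

theorem Fr.normal (r : ℝ) (u X : F.P) :
    met r (F.Phi u) (F.xi r u) (fderiv ℝ F.Phi u X) = 0 := by
  rw [F.fderiv_Phi]
  unfold Fr.Phi Fr.xi
  rw [← DD_smul, met_DD r (F.herm_zz u), herm_smul_left, herm_smul_left, F.herm_pp_zz,
    F.herm_zz_dz, conj_ofReal]
  have : herm (F.pp u.1) (F.dz u X) = -(u.2.1 * I * X.1) := by
    unfold Fr.pp Fr.dz
    rw [F.herm_T]
    simp
  rw [this]
  simp

theorem Fr.struct (r : ℝ) (u : F.P) : fderiv ℝ F.Phi u (F.W r u) = -(I • F.xi r u) := by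
  rw [F.fderiv_Phi]
  unfold Fr.xi
  rw [smul_smul, ← neg_smul, ← DD_smul]
  congr 1
  unfold Fr.dz Fr.pp
  rw [F.T_smul]
  congr 1 <;> simp [Fr.dx, Fr.W, mul_comm]

theorem Fr.hopf (r : ℝ) (u : F.P) : F.A r u (F.W r u) = (2 / r) • F.W r u := by
  change r⁻¹ • F.A0 u _ = _
  simp only [Fr.A0, Fr.W, Fr.ph, Prod.smul_mk, smul_eq_mul, Prod.mk.injEq]
  refine ⟨by simp, by simp, ?_, by simp⟩
  simp
  ring

theorem Fr.eigen {r : ℝ} (hr : 0 < r) (u : F.P) :
    {l : ℝ | Module.End.HasEigenvalue (F.A r u) l} = {2 / r, 1 / r, (1 - F.mu u) / r} := by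
  have hm := F.mu_pos u
  have hev : ∀ (l : ℝ) (X : F.P), X ≠ 0 → F.A0 u X = l • X →
      Module.End.HasEigenvalue (F.A r u) (l / r) := by
    intro l X hX h
    refine Module.End.hasEigenvalue_of_hasEigenvector (x := X) ⟨?_, hX⟩
    rw [Module.End.mem_eigenspace_iff]
    change r⁻¹ • F.A0 u X = _
    rw [h, smul_smul]
    congr 1
    ring
  ext l
  simp only [Set.mem_ofPred_eq, Set.mem_insert_iff, Set.mem_singleton_iff]
  constructor
  · intro h
    obtain ⟨X, hX, hX0⟩ := h.exists_hasEigenvector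
    rw [Module.End.mem_eigenspace_iff] at hX
    change r⁻¹ • F.A0 u X = _ at hX
    have hX' : F.A0 u X = (r * l) • X := by
      rw [mul_smul, ← hX, smul_smul, mul_inv_cancel₀ hr.ne', one_smul]
    obtain ⟨t, b, g, k⟩ := X
    simp only [Fr.A0, Prod.smul_mk, smul_eq_mul, Prod.mk.injEq] at hX'
    obtain ⟨h1, h2, h3, h4⟩ := hX'
    by_cases ht : t = 0
    · subst ht
      by_cases h5 : r * l = 1
      · right; left
        field_simp
        linarith
      · left
        simp only [mul_zero, zero_mul, add_zero, ofReal_zero, zero_smul, sub_zero] at h2 h3 h4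
        have hb : b = 0 := by
          have : (r * l - 1) * b = 0 := by linarith
          exact (mul_eq_zero.1 this).resolve_left (sub_ne_zero.2 h5)
        have hk : k = 0 := by
          have : (r * l - 1) • k = 0 := by rw [sub_smul, one_smul, ← h4, sub_self]
          exact (smul_eq_zero.1 this).resolve_left (sub_ne_zero.2 h5)
        subst hb hk
        have hg : g ≠ 0 := by
          rintro rfl
          exact hX0 rfl
        simp [Fr.ph] at h3
        have : (r * l - 2) * g = 0 := by linarith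
        have := (mul_eq_zero.1 this).resolve_right hg
        field_simp
        linarith
    · right; right
      have : (r * l - (1 - F.mu u)) * t = 0 := by linarith
      have := (mul_eq_zero.1 this).resolve_right ht
      field_simp
      linarith
  · rintro (rfl | rfl | rfl)
    · refine hev 2 (0, 0, 1, 0) (by simp) ?_
      simp [Fr.A0, Fr.ph]
      norm_num
    · refine hev 1 (0, 1, 0, 0) (by simp) ?_
      simp [Fr.A0, Fr.ph]
    · refine hev (1 - F.mu u) (1, -u.2.2.1, (F.mu u * u.2.1 * F.rx u - 2 * u.2.1 * F.rx u +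
        u.2.1 * ‖(u.2.2.2 : E)‖ ^ 2) / (1 + F.mu u), ((u.2.1 : ℂ) * I) • u.2.2.2) (by simp) ?_
      simp only [Fr.A0, Fr.ph, Prod.smul_mk, smul_eq_mul, Prod.mk.injEq, Submodule.coe_smul,
        inner_smul_right, inner_self_eq_norm_sq_to_K]
      refine ⟨by ring, by ring, ?_, ?_⟩
      · simp [← ofReal_pow]
        field_simp
        ring
      · simp only [← coe_smul]
        push_cast
        module

theorem Fr.eigen_card {r : ℝ} (hr : 0 < r) (u : F.P) :
    {l : ℝ | Module.End.HasEigenvalue (F.A r u) l}.ncard = 3 := by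
  have hm := F.mu_pos u
  rw [F.eigen hr, Set.ncard_eq_three]
  refine ⟨_, _, _, ?_, ?_, ?_, rfl⟩ <;> intro h <;> field_simp at h <;> linarith

end Pool.Agent.Lib.MP_bb4e29_gt
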