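import Mathlib
import Pool.Agent.Lib.MP_bb4e29_gt.Shape

namespace Pool.Agent.Lib.MP_bb4e29_gt

open Complex Filter Topology

variable {E : Type} [NormedAddCommGroup E] [InnerProductSpace ℂ E] (F : Fr E)

theorem lift_proj {z : ℂ × E} (h0 : z.1 ≠ 0) : ((1 : ℂ), proj z) = z.1⁻¹ • z := by
  refine Prod.ext ?_ rfl
  simp only [Prod.smul_fst, smul_eq_mul]
  field_simp

theorem normsq_herm_lift {z : ℂ × E} (hz : herm z z = -1) (ν : ℂ × E) :
    ‖herm ν (1, proj z)‖ ^ 2 = ‖herm ν z‖ ^ 2 * (1 - ‖proj z‖ ^ 2) := by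
  rw [lift_proj (fst_ne hz), herm_smul_right, one_sub_proj hz, norm_mul, norm_inv, mul_pow,
    inv_pow, mul_comm]

theorem continuous_herm {Q : Type} [TopologicalSpace Q] {f g : Q → ℂ × E} (hf : Continuous f)
    (hg : Continuous g) : Continuous fun q => herm (f q) (g q) := by
  unfold herm
  exact ((continuous_conj.comp hf.fst).mul hg.fst).neg.add (hf.snd.inner hg.snd)

theorem Fr.herm_pp_lower (τ : ℝ) (u : F.P) :
    1 + (u.1 - τ) ^ 2 / 2 ≤ ‖herm (F.pp τ) (F.zz u)‖ ^ 2 := by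
  have h1 : (herm (F.pp τ) (F.zz u)).re = -(1 + F.rx u * (u.1 - τ) ^ 2 / 2) := by
    unfold Fr.pp Fr.zz
    rw [F.T_shift u.1 τ, F.herm_T]
    simp [Fr.xx, ← ofReal_sub, ← ofReal_pow]
  have h2 := F.rx_pos u
  have h3 : (herm (F.pp τ) (F.zz u)).re ^ 2 ≤ ‖herm (F.pp τ) (F.zz u)‖ ^ 2 := by
    rw [← sq_abs]
    exact pow_le_pow_left₀ (abs_nonneg _) (abs_re_le_norm _) 2
  rw [h1] at h3
  have h4 : 0 ≤ (u.1 - τ) ^ 2 := sq_nonneg _
  nlinarith [mul_nonneg (sub_nonneg.2 h2) h4, sq_nonneg (F.rx u * (u.1 - τ) ^ 2 / 2)]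

noncomputable def Fr.prK (v : E) : F.K :=
  ⟨v - (inner ℂ F.e0 v : ℂ) • F.e0 - (inner ℂ F.e1 v : ℂ) • F.e1, F.mem_K
    (by simp only [inner_sub_right, inner_smul_right, F.h00, F.h01]; ring)
    (by simp only [inner_sub_right, inner_smul_right, F.h11, F.h10]; ring)⟩

theorem Fr.continuous_prK : Continuous F.prK := by
  have h0 : Continuous fun v : E => (inner ℂ F.e0 v : ℂ) := continuous_const.inner continuous_id
  have h1 : Continuous fun v : E => (inner ℂ F.e1 v : ℂ) := continuous_const.inner continuous_id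
  have h2 : Continuous fun v : E =>
      v - (inner ℂ F.e0 v : ℂ) • F.e0 - (inner ℂ F.e1 v : ℂ) • F.e1 :=
    (continuous_id.sub (h0.smul continuous_const)).sub (h1.smul continuous_const)
  exact Continuous.subtype_mk h2 _

theorem Fr.prK_T (t : ℝ) (α s y : ℂ) (k : F.K) : F.prK (F.T t α s y k).2 = k := by
  apply Subtype.ext
  simp only [Fr.prK, Fr.T, inner_add_right, inner_smul_right, F.h00, F.h11, F.h01, F.h10, F.h0k,
    F.h1k]
  module

/-- recovering the parameters from `t` and the normalised lift -/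
noncomputable def Fr.rec0 (q : ℝ × (ℂ × E)) : F.P :=
  (q.1, (herm (F.T q.1 0 1 0 0) q.2).im, (-herm (F.T q.1 0 0 1 0) q.2).im, F.prK q.2.2)

theorem Fr.continuous_rec0 : Continuous F.rec0 := by
  have h1 : Continuous fun t : ℝ => F.T t 0 1 0 0 :=
    (F.contDiff_T (k := fun _ => 0) contDiff_id contDiff_const contDiff_const contDiff_const
      contDiff_const).continuous
  have h2 : Continuous fun t : ℝ => F.T t 0 0 1 0 :=
    (F.contDiff_T (k := fun _ => 0) contDiff_id contDiff_const contDiff_const contDiff_const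
      contDiff_const).continuous
  refine continuous_fst.prodMk (Continuous.prodMk ?_ (Continuous.prodMk ?_ ?_))
  · exact continuous_im.comp (continuous_herm (h1.comp continuous_fst) continuous_snd)
  · exact continuous_im.comp (continuous_herm (h2.comp continuous_fst) continuous_snd).neg
  · exact F.continuous_prK.comp continuous_snd.snd

theorem Fr.rec0_zz (u : F.P) : F.rec0 (u.1, F.zz u) = u := by
  unfold Fr.rec0 Fr.zz
  simp only [F.herm_T, F.prK_T]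
  simp [Fr.xx]

theorem Fr.Phi_lt (v : F.P) : ‖F.Phi v‖ < 1 := proj_lt (F.herm_zz v)

theorem Fr.Phi_pos (v : F.P) : 0 < 1 - ‖F.Phi v‖ ^ 2 := by
  have := F.Phi_lt v
  nlinarith [norm_nonneg (F.Phi v)]

theorem Fr.G_eq (τ : ℝ) (v : F.P) : ‖herm (F.pp τ) (1, F.Phi v)‖ ^ 2 / (1 - ‖F.Phi v‖ ^ 2) =
    ‖herm (F.pp τ) (F.zz v)‖ ^ 2 := by
  rw [div_eq_iff (F.Phi_pos v).ne']
  exact normsq_herm_lift (F.herm_zz v) _

theorem Fr.tendsto_t {L : Filter F.P} {u : F.P} (hΦ : Tendsto F.Phi L (𝓝 (F.Phi u))) :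
    Tendsto (fun v : F.P => v.1) L (𝓝 u.1) := by
  have hc1 : Continuous fun ζ : E => ‖herm (F.pp u.1) (1, ζ)‖ ^ 2 :=
    (continuous_herm continuous_const (continuous_const.prodMk continuous_id)).norm.pow 2
  have hc2 : Continuous fun ζ : E => 1 - ‖ζ‖ ^ 2 := by fun_prop
  have ha : Tendsto (fun v => ‖herm (F.pp u.1) (1, F.Phi v)‖ ^ 2) L
      (𝓝 (‖herm (F.pp u.1) (1, F.Phi u)‖ ^ 2)) := (hc1.tendsto (F.Phi u)).comp hΦ
  have hb : Tendsto (fun v => 1 - ‖F.Phi v‖ ^ 2) L (𝓝 (1 - ‖F.Phi u‖ ^ 2)) :=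
    (hc2.tendsto (F.Phi u)).comp hΦ
  have h1 : Tendsto (fun v => ‖herm (F.pp u.1) (1, F.Phi v)‖ ^ 2 / (1 - ‖F.Phi v‖ ^ 2)) L
      (𝓝 (‖herm (F.pp u.1) (1, F.Phi u)‖ ^ 2 / (1 - ‖F.Phi u‖ ^ 2))) :=
    ha.div hb (F.Phi_pos u).ne'
  simp only [F.G_eq] at h1
  rw [F.herm_pp_zz, norm_neg, norm_one, one_pow] at h1
  have h3 : Tendsto (fun v : F.P => (v.1 - u.1) ^ 2) L (𝓝 0) := by
    have h4 := (h1.sub_const 1).const_mul 2
    rw [sub_self, mul_zero] at h4
    refine squeeze_zero (fun v => sq_nonneg _) (fun v => ?_) h4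
    have := F.herm_pp_lower u.1 v
    linarith
  have h6 : Tendsto (fun v : F.P => Real.sqrt ((v.1 - u.1) ^ 2)) L (𝓝 (Real.sqrt 0)) :=
    (Real.continuous_sqrt.tendsto 0).comp h3
  rw [tendsto_iff_norm_sub_tendsto_zero]
  simp only [Real.sqrt_sq_eq_abs, Real.sqrt_zero] at h6
  exact h6

theorem Fr.zz_eq (v : F.P) : F.zz v = (-herm (F.pp v.1) (1, F.Phi v))⁻¹ • ((1 : ℂ), F.Phi v) := by
  unfold Fr.Phi
  rw [lift_proj (F.zz_ne v), herm_smul_right, F.herm_pp_zz, smul_smul]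
  have := F.zz_ne v
  have e : (-((F.zz v).1⁻¹ * -1))⁻¹ * (F.zz v).1⁻¹ = 1 := by field_simp
  rw [e, one_smul]

theorem Fr.tendsto_zz {L : Filter F.P} {u : F.P} (hΦ : Tendsto F.Phi L (𝓝 (F.Phi u))) :
    Tendsto F.zz L (𝓝 (F.zz u)) := by
  have h5 := F.tendsto_t hΦ
  have hne : -herm (F.pp u.1) (1, F.Phi u) ≠ 0 := by
    intro h
    have := F.zz_eq u
    rw [h, inv_zero, zero_smul] at this
    exact F.zz_ne u (by rw [this]; rfl)
  have hc3 : Continuous fun q : (ℂ × E) × (ℂ × E) => -herm q.1 q.2 :=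
    (continuous_herm continuous_fst continuous_snd).neg
  have h6 : Tendsto (fun v : F.P => F.pp v.1) L (𝓝 (F.pp u.1)) :=
    (F.contDiff_pp.continuous.tendsto u.1).comp h5
  have h6' : Tendsto (fun v : F.P => ((1 : ℂ), F.Phi v)) L (𝓝 ((1 : ℂ), F.Phi u)) :=
    tendsto_const_nhds.prodMk_nhds hΦ
  have h7 := (hc3.tendsto (F.pp u.1, ((1 : ℂ), F.Phi u))).comp (h6.prodMk_nhds h6')
  have h7' : Tendsto (fun v : F.P => -herm (F.pp v.1) (1, F.Phi v)) L
      (𝓝 (-herm (F.pp u.1) (1, F.Phi u))) := h7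
  have h8 := (h7'.inv₀ hne).smul h6'
  rw [← F.zz_eq u] at h8
  exact h8.congr fun v => (F.zz_eq v).symm

theorem Fr.embedding : IsEmbedding F.Phi := by
  apply IsInducing.isEmbedding
  rw [isInducing_iff_nhds]
  intro u
  apply le_antisymm
  · exact (F.contDiff_Phi.continuous.tendsto u).le_comap
  have hΦ : Tendsto F.Phi (comap F.Phi (𝓝 (F.Phi u))) (𝓝 (F.Phi u)) := tendsto_comap
  generalize comap F.Phi (𝓝 (F.Phi u)) = L at hΦ
  have h9 := (F.continuous_rec0.tendsto (u.1, F.zz u)).comp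
    ((F.tendsto_t hΦ).prodMk_nhds (F.tendsto_zz hΦ))
  rw [F.rec0_zz] at h9
  have h10 : Tendsto id L (𝓝 u) := h9.congr fun v => F.rec0_zz v
  exact h10

theorem Fr.isHypersurface {r : ℝ} (hr : 0 < r) :
    IsHypersurface r F.Phi (F.xi r) (F.A r) (F.W r) := by
  refine ⟨F.contDiff_Phi, F.contDiff_xi r, F.embedding, fun u => ⟨proj_lt (F.herm_zz u), F.inj u,
    F.unit hr u, F.normal r u, fun X w => ?_, F.struct r u⟩⟩
  rw [F.shape, met_neg, met_add, koszul_eq r (F.Phi_lt u)]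

end Pool.Agent.Lib.MP_bb4e29_gt
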