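import Mathlib
import Pool.Agent.Lib.MP_bb4e29_gt.Embed

namespace Pool.Agent.Lib.MP_bb4e29_gt

open Complex

variable {E : Type} [NormedAddCommGroup E] [InnerProductSpace ℂ E] (F : Fr E)

theorem lin_bdd {a b : ℂ} {C : ℝ} (h : ∀ s : ℝ, 0 ≤ s → ‖a + s * b‖ ≤ C) : b = 0 := by
  by_contra hb
  have hb' : 0 < ‖b‖ := norm_pos_iff.2 hb
  have hC : ‖a‖ ≤ C := by simpa using h 0 le_rfl
  have ha := norm_nonneg a
  have hs : 0 ≤ (2 * C + 1) / ‖b‖ := div_nonneg (by linarith) hb'.le
  have h1 := h _ hs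
  have h2 : ‖(((2 * C + 1) / ‖b‖ : ℝ) : ℂ) * b‖ = 2 * C + 1 := by
    rw [norm_mul, norm_real, Real.norm_of_nonneg hs]
    field_simp
  have h3 := norm_sub_le (a + (((2 * C + 1) / ‖b‖ : ℝ) : ℂ) * b) a
  rw [add_sub_cancel_left, h2] at h3
  linarith

theorem quad_bdd {a b c : ℂ} {C : ℝ} (h : ∀ s : ℝ, ‖a + s * b + s ^ 2 * c‖ ≤ C) :
    b = 0 ∧ c = 0 := by
  have hc : c = 0 := by
    refine lin_bdd (a := a) (C := C) fun s hs => ?_
    have h1 := h (Real.sqrt s)
    have h2 := h (-Real.sqrt s)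
    have e : ((Real.sqrt s : ℝ) : ℂ) ^ 2 = s := by
      rw [← ofReal_pow, Real.sq_sqrt hs]
    have e2 : a + s * c = (1 / 2 : ℂ) * ((a + (Real.sqrt s : ℝ) * b + (Real.sqrt s : ℝ) ^ 2 * c) +
        (a + (-Real.sqrt s : ℝ) * b + (-Real.sqrt s : ℝ) ^ 2 * c)) := by
      push_cast
      rw [neg_sq, e]
      ring
    rw [e2, norm_mul]
    have h3 := norm_add_le (a + (Real.sqrt s : ℝ) * b + (Real.sqrt s : ℝ) ^ 2 * c)
      (a + (-Real.sqrt s : ℝ) * b + (-Real.sqrt s : ℝ) ^ 2 * c)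
    have h4 : ‖(1 / 2 : ℂ)‖ = 1 / 2 := by simp
    rw [h4]
    linarith
  refine ⟨lin_bdd (a := a) (C := C) fun s _ => ?_, hc⟩
  simpa [hc] using h s

theorem Fr.no_bdd_lin {ν : ℂ × E} {C : ℝ} (h : ∀ u, ‖herm ν (F.zz u)‖ ≤ C) : ν = 0 := by
  obtain ⟨α, s, y, k, rfl⟩ := F.T_surj 0 ν
  have hy : starRingEnd ℂ y = 0 := by
    have := lin_bdd (a := -starRingEnd ℂ α - starRingEnd ℂ y / 2) (b := -starRingEnd ℂ y * I)
      (C := C) fun g _ => by
        have h1 := h (0, 0, g, 0)
        unfold Fr.zz at h1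
        rw [F.herm_T] at h1
        convert h1 using 2
        simp [Fr.xx, Fr.rx]
        ring
    simpa using this
  have hs : starRingEnd ℂ s = 0 := by
    have := lin_bdd (a := -starRingEnd ℂ α) (b := starRingEnd ℂ s * I)
      (C := C) fun g _ => by
        have h1 := h (0, g, 0, 0)
        unfold Fr.zz at h1
        rw [F.herm_T, hy] at h1
        convert h1 using 2
        simp
        ring
    simpa using this
  have hk : (inner ℂ (k : E) (k : E) : ℂ) = 0 :=
    lin_bdd (a := -starRingEnd ℂ α) (C := C) fun g _ => by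
      have h1 := h (0, 0, 0, (g : ℂ) • k)
      unfold Fr.zz at h1
      rw [F.herm_T, hy, hs] at h1
      convert h1 using 2
      simp only [Submodule.coe_smul, inner_smul_right]
      ring
  have hα : starRingEnd ℂ α = 0 := by
    have := (quad_bdd (a := -starRingEnd ℂ α) (b := 0) (c := -starRingEnd ℂ α / 4) (C := C)
      fun t => by
        have h1 := h (t, 0, 0, 0)
        unfold Fr.zz at h1
        rw [F.T_shift t 0, F.herm_T, hy, hs] at h1
        convert h1 using 2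
        simp [Fr.xx, Fr.rx]
        ring).2
    simpa using this
  rw [map_eq_zero] at hy hs hα
  rw [inner_self_eq_zero] at hk
  simp [Fr.T, hy, hs, hα, hk]

/-- an antilinear isometric involution -/
structure IsConj (σ : ℂ × E → ℂ × E) : Prop where
  add : ∀ x y, σ (x + y) = σ x + σ y
  smul : ∀ (c : ℂ) x, σ (c • x) = starRingEnd ℂ c • σ x
  iso : ∀ x y, herm (σ x) (σ y) = starRingEnd ℂ (herm x y)
  inv : ∀ x, σ (σ x) = x

theorem IsConj.symm {σ : ℂ × E → ℂ × E} (hσ : IsConj σ) (x y : ℂ × E) :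
    herm (σ x) y = herm (σ y) x := by
  conv_lhs => rw [← hσ.inv y, hσ.iso, herm_conj]

theorem Fr.no_bdd_quad {σ : ℂ × E → ℂ × E} (hσ : IsConj σ) {C : ℝ}
    (h : ∀ u, ‖herm (σ (F.zz u)) (F.zz u)‖ ≤ C) : False := by
  have key : ∀ (b : ℝ) (k : F.K), herm (σ (F.pp 0)) (F.zz (0, b, 0, k)) = 0 ∧
      herm (σ (F.pp 0)) (F.pp 0) = 0 := by
    intro b k
    have := quad_bdd (a := herm (σ (F.zz (0, b, 0, k))) (F.zz (0, b, 0, k)))
      (b := 2 * I * herm (σ (F.pp 0)) (F.zz (0, b, 0, k)))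
      (c := -herm (σ (F.pp 0)) (F.pp 0)) (C := C) fun g => by
        have h1 := h (0, b, g, k)
        have e : F.zz (0, b, g, k) = F.zz (0, b, 0, k) + ((g : ℂ) * I) • F.pp 0 := by
          unfold Fr.zz Fr.pp
          rw [F.T_smul, F.T_add]
          simp [Fr.xx, Fr.rx]
        rw [e, hσ.add, hσ.smul] at h1
        simp only [herm_add_left, herm_add_right, herm_smul_left, herm_smul_right,
          conj_conj] at h1
        rw [hσ.symm (F.zz (0, b, 0, k)) (F.pp 0)] at h1
        convert h1 using 2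
        linear_combination (-(g : ℂ) ^ 2 * herm (σ (F.pp 0)) (F.pp 0)) * I_mul_I
    simpa using this
  have h0 : σ (F.pp 0) = 0 := by
    obtain ⟨α, s, y, k, hν⟩ := F.T_surj 0 (σ (F.pp 0))
    rw [hν] at key ⊢
    have hy : starRingEnd ℂ y = 0 := by
      have := (key 0 0).2
      unfold Fr.pp at this
      rw [F.herm_T] at this
      simpa using this
    have hα : starRingEnd ℂ α = 0 := by
      have := (key 0 0).1
      unfold Fr.zz at this
      rw [F.herm_T, hy] at this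
      simpa using this
    have hs : starRingEnd ℂ s = 0 := by
      have := (key 1 0).1
      unfold Fr.zz at this
      rw [F.herm_T, hy, hα] at this
      simpa using this
    have hk : (inner ℂ (k : E) (k : E) : ℂ) = 0 := by
      have := (key 0 k).1
      unfold Fr.zz at this
      rw [F.herm_T, hy, hα, hs] at this
      simpa only [zero_mul, neg_zero, sub_zero, zero_add] using this
    rw [map_eq_zero] at hy hs hα
    rw [inner_self_eq_zero] at hk
    simp [Fr.T, hy, hs, hα, hk]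
  have h1 : F.pp 0 = 0 := by
    have h2 := hσ.smul 0 0
    rw [zero_smul, map_zero, zero_smul] at h2
    rw [← hσ.inv (F.pp 0), h0, h2]
  have h3 := congrArg Prod.fst h1
  simp [Fr.pp, Fr.T] at h3

theorem herm_neg_fst {ω : ℂ × E} (hω : herm ω ω = -1) {v : ℂ × E} (hv : herm ω v = 0) :
    0 ≤ (herm v v).re := by
  rw [herm_self, ofReal_re]
  have h1 := norm_rel hω
  have h2 : starRingEnd ℂ ω.1 * v.1 = inner ℂ ω.2 v.2 := by
    rw [inner_snd, hv, zero_add]
  have h3 : ‖ω.1‖ * ‖v.1‖ ≤ ‖ω.2‖ * ‖v.2‖ := by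
    have := norm_inner_le_norm (𝕜 := ℂ) ω.2 v.2
    rwa [← h2, norm_mul, RCLike.norm_conj] at this
  have h4 : ‖ω.2‖ ≤ ‖ω.1‖ := by
    exact le_of_sq_le_sq (by nlinarith) (norm_nonneg _)
  have h5 : 0 < ‖ω.1‖ := norm_pos_iff.2 (fst_ne hω)
  have h6 : ‖v.1‖ ≤ ‖v.2‖ := by
    have : ‖ω.1‖ * ‖v.1‖ ≤ ‖ω.1‖ * ‖v.2‖ :=
      h3.trans (mul_le_mul_of_nonneg_right h4 (norm_nonneg _))
    exact le_of_mul_le_mul_left this h5
  nlinarith [norm_nonneg v.1]

theorem perp_cs {ω : ℂ × E} (hω : herm ω ω = -1) {a b : ℂ × E} (ha : herm ω a = 0)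
    (hb : herm ω b = 0) : ‖herm a b‖ ≤ (herm a a).re + (herm b b).re := by
  have key : ∀ c : ℂ, starRingEnd ℂ c * c = 1 →
      2 * (c * herm a b).re ≤ (herm a a).re + (herm b b).re := by
    intro c hc
    have h1 := herm_neg_fst hω (v := a - c • b) (by rw [herm_sub_right, herm_smul_right, ha, hb]; simp)
    rw [herm_sub_left, herm_sub_right, herm_sub_right, herm_smul_left, herm_smul_left,
      herm_smul_right, herm_smul_right, ← mul_assoc, hc, one_mul, ← herm_conj a b, ← map_mul] at h1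
    simp only [sub_re, conj_re] at h1
    linarith
  have h1 := key 1 (by simp)
  have h2 := key (-1) (by simp)
  have h3 := key I (by simp)
  have h4 := key (-I) (by simp)
  simp only [one_mul, neg_mul, neg_re, mul_re, I_re, I_im, zero_mul, zero_sub] at h1 h2 h3 h4
  have h5 := norm_le_abs_re_add_abs_im (herm a b)
  have h6 : |(herm a b).re| ≤ ((herm a a).re + (herm b b).re) / 2 := abs_le.2 ⟨by linarith, by linarith⟩
  have h7 : |(herm a b).im| ≤ ((herm a a).re + (herm b b).re) / 2 := abs_le.2 ⟨by linarith, by linarith⟩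
  linarith

/-- orthogonal decomposition along a unit negative vector -/
theorem perp_part {ω z : ℂ × E} (hω : herm ω ω = -1) (hz : herm z z = -1) :
    herm ω (z + herm ω z • ω) = 0 ∧
      (herm (z + herm ω z • ω) (z + herm ω z • ω)).re = ‖herm ω z‖ ^ 2 - 1 := by
  constructor
  · rw [herm_add_right, herm_smul_right, hω]
    ring
  · have : herm (z + herm ω z • ω) (z + herm ω z • ω) = ((‖herm ω z‖ ^ 2 - 1 : ℝ) : ℂ) := by
      rw [ofReal_sub, normsq_cast, herm_add_left, herm_add_right, herm_add_right, herm_smul_left,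
        herm_smul_left, herm_smul_right, herm_smul_right, hω, hz, ← herm_conj ω z]
      push_cast
      ring
    rw [this, ofReal_re]

theorem hdist_bound {r R : ℝ} (hr : 0 < r) {z : ℂ × E} (hz : herm z z = -1) {w : E}
    (hw : ‖w‖ < 1) (h : hdist r (proj z) w < R) :
    ∃ e : ℝ, e ≠ 0 ∧ herm ((e : ℂ) • ((1 : ℂ), w)) ((e : ℂ) • ((1 : ℂ), w)) = -1 ∧
      ‖herm ((e : ℂ) • ((1 : ℂ), w)) z‖ ≤ Real.cosh (R / r) := by
  have hp : 0 < 1 - ‖w‖ ^ 2 := by nlinarith [norm_nonneg w]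
  have hp' : 0 < 1 - ‖proj z‖ ^ 2 := by nlinarith [norm_nonneg (proj z), proj_lt hz]
  have hs := Real.sqrt_pos.2 hp
  have hs' := Real.sqrt_pos.2 hp'
  refine ⟨(Real.sqrt (1 - ‖w‖ ^ 2))⁻¹, by positivity, ?_, ?_⟩
  · rw [herm_smul_left, herm_smul_right, herm_self, conj_ofReal, ← ofReal_mul, ← ofReal_mul]
    have : (Real.sqrt (1 - ‖w‖ ^ 2))⁻¹ * ((Real.sqrt (1 - ‖w‖ ^ 2))⁻¹ *
        (‖((1 : ℂ), w).2‖ ^ 2 - ‖((1 : ℂ), w).1‖ ^ 2)) = -1 := by
      simp only [norm_one]
      field_simp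
      rw [Real.sq_sqrt hp.le]
      ring
    rw [this]
    simp
  · have h1 : ‖herm ((1 : ℂ), w) (1, proj z)‖ = ‖1 - (inner ℂ (proj z) w : ℂ)‖ := by
      rw [← herm_conj, RCLike.norm_conj, ← norm_neg]
      simp only [herm, map_one, one_mul]
      congr 1
      ring
    have h2 := normsq_herm_lift hz ((1 : ℂ), w)
    have h3 : ‖1 - (inner ℂ (proj z) w : ℂ)‖ =
        ‖herm ((1 : ℂ), w) z‖ * Real.sqrt (1 - ‖proj z‖ ^ 2) := by
      rw [← h1, ← Real.sqrt_sq (norm_nonneg (herm ((1 : ℂ), w) (1, proj z))), h2,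
        Real.sqrt_mul (sq_nonneg _), Real.sqrt_sq (norm_nonneg _)]
    have h4 : ‖herm ((((Real.sqrt (1 - ‖w‖ ^ 2))⁻¹ : ℝ) : ℂ) • ((1 : ℂ), w)) z‖ =
        ‖1 - (inner ℂ (proj z) w : ℂ)‖ / Real.sqrt ((1 - ‖proj z‖ ^ 2) * (1 - ‖w‖ ^ 2)) := by
      rw [herm_smul_left, conj_ofReal, norm_mul, norm_real, Real.norm_of_nonneg (by positivity),
        h3, Real.sqrt_mul hp'.le]
      field_simp
    rw [h4]
    unfold hdist at h
    generalize ‖1 - (inner ℂ (proj z) w : ℂ)‖ /
      Real.sqrt ((1 - ‖proj z‖ ^ 2) * (1 - ‖w‖ ^ 2)) = x at h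
    by_cases hx : 1 ≤ x
    · have h5 : Real.arcosh x ≤ R / r := by
        rw [le_div_iff₀ hr]
        linarith
      have h6 := Real.arcosh_nonneg hx
      rw [← Real.cosh_arcosh hx, Real.cosh_le_cosh, abs_of_nonneg h6]
      exact h5.trans (le_abs_self _)
    · exact (not_le.1 hx).le.trans (Real.one_le_cosh _)

theorem tube_near {r ρ : ℝ} {S : Set E} (hρ : 0 < ρ) {z : E} (hz : z ∈ tube r S ρ) :
    ∃ w ∈ S, hdist r z w < ρ + 1 := by
  have hne : ((fun w => hdist r z w) '' S).Nonempty := by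
    by_contra hc
    rw [Set.not_nonempty_iff_eq_empty] at hc
    have := hz.2
    rw [hc, Real.sInf_empty] at this
    linarith
  obtain ⟨x, ⟨w, hw, rfl⟩, hx⟩ := exists_lt_of_csInf_lt hne (b := ρ + 1) (by rw [hz.2]; linarith)
  exact ⟨w, hw, hx⟩

noncomputable def cj {m : ℕ} (b : OrthonormalBasis (Fin m) ℂ E) (x : ℂ × E) : ℂ × E :=
  (starRingEnd ℂ x.1, b.repr.symm (WithLp.toLp 2 fun j => starRingEnd ℂ (b.repr x.2 j)))

theorem isConj_cj {m : ℕ} (b : OrthonormalBasis (Fin m) ℂ E) : IsConj (cj b) where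
  add x y := by
    refine Prod.ext (by simp [cj]) ?_
    apply b.repr.injective
    ext j
    simp [cj]
  smul c x := by
    refine Prod.ext (by simp [cj]) ?_
    apply b.repr.injective
    ext j
    simp [cj]
  iso x y := by
    simp only [cj, herm, LinearIsometryEquiv.inner_map_map]
    rw [← b.repr.inner_map_map x.2 y.2]
    generalize b.repr x.2 = X
    generalize b.repr y.2 = Y
    simp [PiLp.inner_apply]
  inv x := by
    refine Prod.ext (by simp [cj]) ?_
    apply b.repr.injective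
    ext j
    simp [cj]

theorem Fr.not_montiel [FiniteDimensional ℂ E] {r : ℝ} (hr : 0 < r) {N : Set E} (hN : IsMontiel r N) :
    ¬ Set.range F.Phi ⊆ N := by
  intro hsub
  have hmem : ∀ u, proj (F.zz u) ∈ N := fun u => hsub ⟨u, rfl⟩
  rcases hN with ⟨q, -, κ, -, rfl⟩ | ⟨p, hp, ρ, -, rfl⟩ | ⟨k, -, hk, S, ⟨L, hL, rfl, p, hp⟩, ρ, hρ, rfl⟩ |
    ⟨S, ⟨b, g, hg, rfl⟩, ρ, hρ, rfl⟩
  · have h0 : ((1 : ℂ), q) = 0 := by
      refine F.no_bdd_lin (C := κ + 1) fun u => ?_
      have h1 := (hmem u).2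
      have h2 := normsq_herm_lift (F.herm_zz u) ((1 : ℂ), q)
      have h3 : ‖herm ((1 : ℂ), q) (1, proj (F.zz u))‖ = ‖1 - (inner ℂ q (proj (F.zz u)) : ℂ)‖ := by
        rw [← norm_neg]
        simp only [herm, map_one, one_mul]
        congr 1
        ring
      rw [h3, h1] at h2
      have h4 := mul_right_cancel₀ (F.Phi_pos u).ne' h2
      nlinarith [sq_nonneg (‖herm ((1 : ℂ), q) (F.zz u)‖ - 1)]
    simpa using congrArg Prod.fst h0
  · have h0 : ((1 : ℂ), p) = 0 := by
      refine F.no_bdd_lin (C := Real.cosh ((ρ + 1) / r)) fun u => ?_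
      obtain ⟨e, -, h1, h2⟩ := hdist_bound (R := ρ + 1) hr (F.herm_zz u) hp
        (by rw [(hmem u).2]; linarith)
      rw [herm_smul_left, conj_ofReal, norm_mul] at h2
      have h3 := norm_rel h1
      simp only [Prod.smul_fst, smul_eq_mul, mul_one] at h3
      have h4 : 1 ≤ ‖(e : ℂ)‖ := by
        by_contra hc
        nlinarith [norm_nonneg (e : ℂ), sq_nonneg ‖((e : ℂ) • ((1 : ℂ), p)).2‖]
      nlinarith [norm_nonneg (herm ((1 : ℂ), p) (F.zz u))]
    simpa using congrArg Prod.fst h0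
  · have hne : L.directionᗮ ≠ ⊥ := by
      intro hb
      rw [Submodule.orthogonal_eq_bot_iff] at hb
      rw [hb, finrank_top] at hL
      omega
    obtain ⟨η, hη, hη0⟩ := Submodule.exists_mem_ne_zero_of_ne_bot hne
    have h0 : ((inner ℂ p η : ℂ), η) = 0 := by
      refine F.no_bdd_lin (C := (herm ((inner ℂ p η : ℂ), η) ((inner ℂ p η : ℂ), η)).re +
        Real.cosh ((ρ + 1) / r) ^ 2) fun u => ?_
      obtain ⟨w, hw, hd⟩ := tube_near hρ (hmem u)
      obtain ⟨e, -, h1, h2⟩ := hdist_bound hr (F.herm_zz u) hw.1 hd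
      have h3 : herm ((e : ℂ) • ((1 : ℂ), w)) ((inner ℂ p η : ℂ), η) = 0 := by
        have h4 : (inner ℂ (w - p) η : ℂ) = 0 :=
          Submodule.inner_right_of_mem_orthogonal (AffineSubspace.vsub_mem_direction hw.2 hp.2) hη
        rw [inner_sub_left] at h4
        rw [herm_smul_left]
        simp only [herm, map_one, one_mul]
        rw [neg_add_eq_sub, h4, mul_zero]
      obtain ⟨h5, h6⟩ := perp_part h1 (F.herm_zz u)
      have h7 := perp_cs h1 h3 h5
      rw [h6, herm_add_right, herm_smul_right, ← herm_conj ((e : ℂ) • ((1 : ℂ), w)), h3, map_zero,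
        mul_zero, add_zero] at h7
      have h8 := pow_le_pow_left₀ (norm_nonneg _) h2 2
      linarith
    exact hη0 (congrArg Prod.snd h0)
  · have hg' : ∀ x y, herm (g.symm x) (g.symm y) = herm x y := fun x y => by
      rw [← hg, g.apply_symm_apply, g.apply_symm_apply]
    have hσ : IsConj fun x => g (cj b (g.symm x)) :=
      ⟨fun x y => by rw [map_add, (isConj_cj b).add, map_add],
        fun c x => by rw [map_smul, (isConj_cj b).smul, map_smul],
        fun x y => by rw [hg, (isConj_cj b).iso, hg'],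
        fun x => by rw [g.symm_apply_apply, (isConj_cj b).inv, g.apply_symm_apply]⟩
    refine F.no_bdd_quad hσ (C := 3 * Real.cosh ((ρ + 1) / r) ^ 2) fun u => ?_
    obtain ⟨w, ⟨hw, x, -, hx, c, hc⟩, hd⟩ := tube_near hρ (hmem u)
    obtain ⟨e, he, h1, h2⟩ := hdist_bound hr (F.herm_zz u) hw hd
    have hc0 : c ≠ 0 := by
      rintro rfl
      simpa using congrArg Prod.fst hc
    have hfix : cj b ((1 : ℂ), x) = (1, x) := by
      refine Prod.ext (by simp [cj]) ?_
      apply b.repr.injective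
      ext j
      simp only [cj, LinearIsometryEquiv.apply_symm_apply, b.repr_apply_apply]
      exact conj_eq_iff_im.2 (hx j)
    have he' : (e : ℂ) ≠ 0 := ofReal_ne_zero.2 he
    have hσω : g (cj b (g.symm ((e : ℂ) • ((1 : ℂ), w)))) =
        (starRingEnd ℂ c * c⁻¹) • ((e : ℂ) • ((1 : ℂ), w)) := by
      rw [hc, smul_smul, map_smul, g.symm_apply_apply, (isConj_cj b).smul, map_smul, hfix, smul_smul]
      congr 1
      rw [map_mul, conj_ofReal]
      field_simp
    have hl : ‖starRingEnd ℂ c * c⁻¹‖ = 1 := by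
      rw [norm_mul, RCLike.norm_conj, norm_inv, mul_inv_cancel₀ (norm_ne_zero_iff.2 hc0)]
    have hl0 : starRingEnd ℂ c * c⁻¹ ≠ 0 := norm_ne_zero_iff.1 (by rw [hl]; norm_num)
    generalize (e : ℂ) • ((1 : ℂ), w) = ω at h1 h2 hσω
    generalize starRingEnd ℂ c * c⁻¹ = l at hσω hl hl0
    generalize hσ' : (fun x => g (cj b (g.symm x))) = σ at hσ
    have hσω' : σ ω = l • ω := by rw [← hσ']; exact hσω
    have hgoal : g (cj b (g.symm (F.zz u))) = σ (F.zz u) := by rw [← hσ']
    rw [hgoal]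
    obtain ⟨h5, h6⟩ := perp_part h1 (F.herm_zz u)
    generalize hv : F.zz u + herm ω (F.zz u) • ω = v at h5 h6
    have hz : F.zz u = v + (-herm ω (F.zz u)) • ω := by rw [← hv]; module
    generalize herm ω (F.zz u) = a at h2 h6 hz
    have h7 : herm ω (σ v) = 0 := by
      have := hσ.iso ω v
      rw [hσω', herm_smul_left, h5, map_zero] at this
      exact (mul_eq_zero.1 this).resolve_left (by simpa using hl0)
    have h7' : herm (σ v) ω = 0 := by rw [← herm_conj, h7, map_zero]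
    have h8 := perp_cs h1 h7 h5
    rw [hσ.iso, conj_re, h6] at h8
    have h9 : herm (σ (F.zz u)) (F.zz u) = herm (σ v) v - a * a * starRingEnd ℂ l := by
      rw [hz, hσ.add, hσ.smul, hσω']
      simp only [herm_add_left, herm_add_right, herm_smul_left, herm_smul_right, h7', h5, h1,
        conj_conj]
      ring
    have h10 := norm_sub_le (herm (σ v) v) (a * a * starRingEnd ℂ l)
    rw [norm_mul, norm_mul, RCLike.norm_conj, hl] at h10
    have h11 := pow_le_pow_left₀ (norm_nonneg _) h2 2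
    rw [h9]
    nlinarith

end Pool.Agent.Lib.MP_bb4e29_gt
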