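import Mathlib
import Pool.Agent.Lib.MP_bb4e29_gt.NotIn

namespace Pool.Agent.Lib.MP_bb4e29_gt

variable {E : Type} [NormedAddCommGroup E] [InnerProductSpace ℂ E]

theorem IsHypersurface.comp {P Q : Type} [NormedAddCommGroup P] [NormedSpace ℝ P]
    [NormedAddCommGroup Q] [NormedSpace ℝ Q] (e : Q ≃L[ℝ] P) {r : ℝ} {Φ ξ : P → E}
    {A : P → P →ₗ[ℝ] P} {W : P → P} (h : IsHypersurface r Φ ξ A W) :
    IsHypersurface r (Φ ∘ e) (ξ ∘ e) (fun u => e.toLinearEquiv.symm.conj (A (e u)))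
      (fun u => e.symm (W (e u))) := by
  obtain ⟨h1, h2, h3, h4⟩ := h
  have hd : ∀ (f : P → E) (u X : Q), fderiv ℝ (f ∘ e) u X = fderiv ℝ f (e u) (e X) := by
    intro f u X
    rw [e.comp_right_fderiv]
    rfl
  refine ⟨h1.comp e.contDiff, h2.comp e.contDiff, h3.comp e.toHomeomorph.isEmbedding, fun u => ?_⟩
  obtain ⟨k1, k2, k3, k4, k5, k6⟩ := h4 (e u)
  refine ⟨k1, ?_, k3, fun X => ?_, fun X w => ?_, ?_⟩
  · intro X Y hXY
    rw [hd, hd] at hXY
    exact e.injective (k2 hXY)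
  · rw [hd]
    exact k4 _
  · rw [hd, hd, hd]
    have : e (e.toLinearEquiv.symm.conj (A (e u)) X) = A (e u) (e X) := by
      simp [LinearEquiv.conj_apply]
    rw [this]
    exact k5 _ _
  · rw [hd, e.apply_symm_apply]
    exact k6

theorem eigen_conj {P Q : Type} [AddCommGroup P] [Module ℝ P] [AddCommGroup Q] [Module ℝ Q]
    (e : P ≃ₗ[ℝ] Q) (A : P →ₗ[ℝ] P) (l : ℝ) (h : Module.End.HasEigenvalue A l) :
    Module.End.HasEigenvalue (e.conj A) l := by
  obtain ⟨X, hX, hX0⟩ := h.exists_hasEigenvector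
  rw [Module.End.mem_eigenspace_iff] at hX
  refine Module.End.hasEigenvalue_of_hasEigenvector (x := e X) ⟨?_, by simpa using hX0⟩
  rw [Module.End.mem_eigenspace_iff]
  simp [LinearEquiv.conj_apply, hX]

theorem eigen_conj_iff {P Q : Type} [AddCommGroup P] [Module ℝ P] [AddCommGroup Q] [Module ℝ Q]
    (e : P ≃ₗ[ℝ] Q) (A : P →ₗ[ℝ] P) (l : ℝ) :
    Module.End.HasEigenvalue (e.conj A) l ↔ Module.End.HasEigenvalue A l := by
  refine ⟨fun h => ?_, eigen_conj e A l⟩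
  have := eigen_conj e.symm _ l h
  rwa [LinearEquiv.conj_symm_conj] at this

theorem Fr.finrank_P [FiniteDimensional ℂ E] (F : Fr E) :
    Module.finrank ℝ F.P = 2 * Module.finrank ℂ E - 1 := by
  have hli : LinearIndependent ℂ ![F.e0, F.e1] := by
    rw [LinearIndependent.pair_iff]
    intro s t h
    have h0 := congrArg (fun v => (inner ℂ F.e0 v : ℂ)) h
    have h1 := congrArg (fun v => (inner ℂ F.e1 v : ℂ)) h
    simp only [inner_add_right, inner_smul_right, F.h00, F.h11, F.h01, F.h10, inner_zero_right]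
      at h0 h1
    constructor
    · simpa using h0
    · simpa using h1
  have h2 : Module.finrank ℂ (Submodule.span ℂ {F.e0, F.e1}) = 2 := by
    have := finrank_span_eq_card hli
    rw [Matrix.range_cons_cons_empty] at this
    simpa using this
  have h3 := Submodule.finrank_add_finrank_orthogonal (Submodule.span ℂ {F.e0, F.e1})
  rw [h2] at h3
  have h4 : Module.finrank ℝ F.K = 2 * Module.finrank ℂ F.K := by
    rw [← Module.finrank_mul_finrank ℝ ℂ F.K, Complex.finrank_real_complex]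
  have h5 : Module.finrank ℂ F.K + 2 = Module.finrank ℂ E := by
    unfold Fr.K
    omega
  simp only [Fr.P, Module.finrank_prod, Module.finrank_self, h4]
  omega

theorem Fr.nonconst (F : Fr E) {r : ℝ} (hr : 0 < r) {U : Set F.P} (hU : IsOpen U)
    (hne : U.Nonempty) : ∃ u ∈ U, ∃ v ∈ U, {l : ℝ | Module.End.HasEigenvalue (F.A r u) l} ≠
      {l : ℝ | Module.End.HasEigenvalue (F.A r v) l} := by
  obtain ⟨⟨t, b, g, k⟩, hu⟩ := hne
  have hc : Continuous fun s : ℝ => ((t, s, g, k) : F.P) := by fun_prop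
  have h1 : {s : ℝ | ((t, s, g, k) : F.P) ∈ U} ∈ nhds b := (hU.preimage hc).mem_nhds hu
  obtain ⟨s, hs, hs'⟩ := (infinite_of_mem_nhds b h1).exists_notMem_finset {b, -b}
  simp only [Finset.mem_insert, Finset.mem_singleton, not_or] at hs'
  refine ⟨_, hu, _, hs, fun h => ?_⟩
  rw [F.eigen hr, F.eigen hr] at h
  have h2 : (1 - F.mu (t, b, g, k)) / r ∈ ({2 / r, 1 / r, (1 - F.mu (t, s, g, k)) / r} : Set ℝ) := by
    rw [← h]
    simp
  have hm := F.mu_pos (t, b, g, k)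
  simp only [Set.mem_insert_iff, Set.mem_singleton_iff] at h2
  rcases h2 with h2 | h2 | h2 <;> field_simp at h2
  · linarith
  · linarith
  · have h3 : F.mu (t, b, g, k) = F.mu (t, s, g, k) := by linarith
    unfold Fr.mu at h3
    rw [inv_inj] at h3
    simp only [Fr.rx] at h3
    have h4 : (s - b) * (s + b) = 0 := by linarith
    rcases mul_eq_zero.1 h4 with h5 | h5
    · exact hs'.1 (by linarith)
    · exact hs'.2 (by linarith)

noncomputable def stdFr [FiniteDimensional ℂ E] (hn : 2 ≤ Module.finrank ℂ E) : Fr E where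
  e0 := stdOrthonormalBasis ℂ E ⟨0, by omega⟩
  e1 := stdOrthonormalBasis ℂ E ⟨1, by omega⟩
  h00 := by simp
  h11 := by simp
  h01 := (stdOrthonormalBasis ℂ E).orthonormal.2 (by simp)

theorem main [FiniteDimensional ℂ E] {n : ℕ} (hE : Module.finrank ℂ E = n) (hn : 2 ≤ n) {r : ℝ}
    (hr : 0 < r) :
    ∃ (Φ ξ : (Fin (2 * n - 1) → ℝ) → E)
      (A : (Fin (2 * n - 1) → ℝ) → (Fin (2 * n - 1) → ℝ) →ₗ[ℝ] (Fin (2 * n - 1) → ℝ))
      (W : (Fin (2 * n - 1) → ℝ) → (Fin (2 * n - 1) → ℝ)) (a : ℝ),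
      IsHypersurface r Φ ξ A W ∧ (∀ u, A u (W u) = a • W u) ∧ a ^ 2 + 4 * (-1 / r ^ 2) = 0 ∧
      (∀ u, {l : ℝ | Module.End.HasEigenvalue (A u) l}.ncard = 3) ∧
      (∀ U, IsOpen U → U.Nonempty → ∃ u ∈ U, ∃ v ∈ U,
        {l : ℝ | Module.End.HasEigenvalue (A u) l} ≠ {l : ℝ | Module.End.HasEigenvalue (A v) l}) ∧
      ∀ N : Set E, IsMontiel r N → ¬ Set.range Φ ⊆ N := by
  let F : Fr E := stdFr (hE ▸ hn)
  let e : (Fin (2 * n - 1) → ℝ) ≃L[ℝ] F.P :=
    ContinuousLinearEquiv.ofFinrankEq (by rw [F.finrank_P, hE, Module.finrank_fin_fun])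
  refine ⟨_, _, _, _, 2 / r, (F.isHypersurface hr).comp e, fun u => ?_, ?_, fun u => ?_,
    fun U hU hne => ?_, fun N hN => ?_⟩
  · simp [LinearEquiv.conj_apply, F.hopf]
  · field_simp
    ring
  · simp only [eigen_conj_iff]
    exact F.eigen_card hr _
  · simp only [eigen_conj_iff]
    obtain ⟨_, ⟨u, hu, rfl⟩, _, ⟨v, hv, rfl⟩, h⟩ :=
      F.nonconst hr (e.toHomeomorph.isOpenMap U hU) (hne.image _)
    exact ⟨u, hu, v, hv, h⟩
  · rw [e.surjective.range_comp]
    exact F.not_montiel hr hN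

end Pool.Agent.Lib.MP_bb4e29_gt
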